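import Pool.Agent.H87.AX.Targets4

/-! Row AXS of the board axs (MP_2697e3_an): the theorem from the other rows. -/

namespace Pool.Agent.H87.AX

open MeasureTheory Metric Set Filter Topology Pool.Agent.H87.SN Pool.Agent.H87.SH
open scoped ContDiff RealInnerProductSpace ENNReal

theorem axs_cont_rho : Continuous (rho : E (1 + 2) → ℝ) := by
  unfold rho
  fun_prop

theorem pf_AXS (hAXD : T_AXD) (hNUE : T_NUE) (hGPT : T_GPT) (hRGE : T_RGE) (hBPT : T_BPT)
    (hWKH : T_WKH) : T_AXS := by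
  intro m N A P C hN hA hP
  obtain ⟨δ, K, hδ, hK, hgpt⟩ := hGPT m N A hN hA
  obtain ⟨C1, hC1, hnue⟩ := hNUE m N A P δ hN hA hP hδ
  obtain ⟨C2, hC2, hrge⟩ := hRGE
  obtain ⟨E0, hE0⟩ : ∃ E0 : ℝ, E0 = max C 0 := ⟨_, rfl⟩
  have hE0n : 0 ≤ E0 := by rw [hE0]; exact le_max_right _ _
  obtain ⟨F, hF, hbpt⟩ := hBPT m N A P (C2 * E0) hN hA hP (by positivity)
  refine ⟨K * Real.sqrt ((1 + C1 * (1 + E0)) * E0) + F * (C1 * (1 + E0)), by positivity, ?_⟩
  intro u G hst hsm hax hen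
  obtain ⟨hAx, hS1, hae, heng⟩ := hAXD m N A P u G hN hA hst hsm hax
  have hmG := hst.w12.memLp_deriv
  have hen0 : ∫ x in ball (0 : E (1 + 2)) 2, nsq (G x) ≤ E0 := by
    rw [hE0]; exact hen.trans (le_max_left _ _)
  have hen1 : 0 ≤ ∫ x in ball (0 : E (1 + 2)) 2, nsq (G x) :=
    integral_nonneg fun x => Finset.sum_nonneg fun i _ => by positivity
  have hsub : offAxis ⊆ ball (0 : E (1 + 2)) 2 := fun x hx => hx.1
  have heo : engy u offAxis ≤ ENNReal.ofReal E0 := by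
    have h1 := heng (ball 0 2) measurableSet_ball le_rfl
    rw [inter_eq_right.2 hsub] at h1
    exact h1.trans (ENNReal.ofReal_le_ofReal hen0)
  obtain ⟨ν, hν, hνu, hUV⟩ := hnue u E0 hAx hE0n heo
  have hUVs : UV ν ⊆ offAxis := fun x hx => ⟨ball_subset_ball (by norm_num) hx.1, hx.2.1⟩
  have hgood := hgpt ν hν u G hst (hsm.mono hUVs) hUV
  have hbad := hbpt u hAx (by
    intro p hp
    obtain ⟨h1, h2, h3⟩ := hrge m G hmG hS1 p hp
    refine (heng _ h1 h2).trans (ENNReal.ofReal_le_ofReal (h3.trans ?_))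
    have hp1 : 0 ≤ p.1 := hp.1.le
    calc C2 * p.1 * ∫ x in ball (0 : E (1 + 2)) 2, nsq (G x) ≤ C2 * p.1 * E0 :=
          mul_le_mul_of_nonneg_left hen0 (by positivity)
      _ = C2 * E0 * p.1 := by ring) ν hν
  -- the sum
  have hνr : (ν univ).toReal ≤ C1 * (1 + E0) := by
    rw [← ENNReal.toReal_ofReal (by positivity : 0 ≤ C1 * (1 + E0))]
    exact ENNReal.toReal_mono ENNReal.ofReal_ne_top hνu
  have hsum : hInt u {x | x ∈ ball (0 : E (1 + 2)) 1 ∧ 0 < rho x} ≤
      ENNReal.ofReal (K * Real.sqrt ((1 + C1 * (1 + E0)) * E0) + F * (C1 * (1 + E0))) := by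
    have hS : {x : E (1 + 2) | x ∈ ball (0 : E (1 + 2)) 1 ∧ 0 < rho x} ⊆
        {x | x ∈ ball (0 : E (1 + 2)) 1 ∧ 0 < rho x ∧ Jx ν x ≤ c0 / 2} ∪
        {x | x ∈ ball (0 : E (1 + 2)) 1 ∧ 0 < rho x ∧ c0 / 2 < Jx ν x} := by
      intro x hx
      rcases le_or_gt (Jx ν x) (c0 / 2) with h | h
      · exact Or.inl ⟨hx.1, hx.2, h⟩
      · exact Or.inr ⟨hx.1, hx.2, h⟩
    calc hInt u {x | x ∈ ball (0 : E (1 + 2)) 1 ∧ 0 < rho x}
        ≤ hInt u {x | x ∈ ball (0 : E (1 + 2)) 1 ∧ 0 < rho x ∧ Jx ν x ≤ c0 / 2} +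
          hInt u {x | x ∈ ball (0 : E (1 + 2)) 1 ∧ 0 < rho x ∧ c0 / 2 < Jx ν x} :=
          (lintegral_mono_set hS).trans (lintegral_union_le _ _ _)
      _ ≤ ENNReal.ofReal (K * Real.sqrt ((1 + C1 * (1 + E0)) * E0)) +
          ENNReal.ofReal (F * (C1 * (1 + E0))) := by
          refine add_le_add (hgood.trans (ENNReal.ofReal_le_ofReal ?_)) (hbad.trans ?_)
          · refine mul_le_mul_of_nonneg_left (Real.sqrt_le_sqrt ?_) hK
            exact mul_le_mul (by linarith) hen0 hen1 (by positivity)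
          · rw [ENNReal.ofReal_mul hF]
            exact mul_le_mul' le_rfl hνu
      _ = _ := (ENNReal.ofReal_add (by positivity) (by positivity)).symm
  have hw := hWKH m u G hmG hsm hae (ne_top_of_le_ne_top ENNReal.ofReal_ne_top hsum)
  have hSm : MeasurableSet {x : E (1 + 2) | x ∈ ball (0 : E (1 + 2)) 1 ∧ 0 < rho x} :=
    measurableSet_ball.inter (isOpen_lt continuous_const axs_cont_rho).measurableSet
  refine ⟨fun i j => {x : E (1 + 2) | x ∈ ball (0 : E (1 + 2)) 1 ∧ 0 < rho x}.indicator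
    (fun x => fderiv ℝ (fderiv ℝ u) x (bv i) (bv j)), ?_, ?_, ?_⟩
  · intro i j
    exact ((integrable_indicator_iff hSm).2 (hw (bv i) (bv j)).1).integrableOn
  · intro i j φ h1 h2 h3
    rw [(hw (bv i) (bv j)).2 φ h1 h2 h3, ← integral_indicator hSm]
    congr 1
    refine integral_congr_ae (Eventually.of_forall fun x => ?_)
    by_cases hx : x ∈ {x : E (1 + 2) | x ∈ ball (0 : E (1 + 2)) 1 ∧ 0 < rho x}
    · simp only [indicator_of_mem hx]
    · simp only [indicator_of_notMem hx, smul_zero]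
  · refine le_trans ?_ hsum
    unfold hInt
    rw [← lintegral_indicator measurableSet_ball, ← lintegral_indicator hSm]
    refine lintegral_mono fun x => ?_
    by_cases hx : x ∈ {x : E (1 + 2) | x ∈ ball (0 : E (1 + 2)) 1 ∧ 0 < rho x}
    · rw [indicator_of_mem hx, indicator_of_mem hx.1]
      simp only [indicator_of_mem hx]
      rfl
    · rw [indicator_of_notMem hx]
      by_cases hb : x ∈ ball (0 : E (1 + 2)) 1
      · rw [indicator_of_mem hb]
        simp only [indicator_of_notMem hx]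
        simp
      · rw [indicator_of_notMem hb]

end Pool.Agent.H87.AX
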