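import Pool.Agent.H87.AX.GPT

/-! Row BPT of the board axs (MP_2697e3_an): the bad part. -/

namespace Pool.Agent.H87.AX

open MeasureTheory Metric Set Filter Topology Pool.Agent.H87.SN Pool.Agent.H87.SH
open scoped ContDiff RealInnerProductSpace ENNReal

theorem norm_sq_rz (x : E (1 + 2)) : ‖x‖ ^ 2 = rho x ^ 2 + (zp x 0) ^ 2 := by
  rw [EuclideanSpace.norm_sq_eq]
  unfold rho
  rw [Real.sq_sqrt (by positivity)]
  have h : zp x 0 = x 2 := rfl
  rw [h]
  simp only [Real.norm_eq_abs, sq_abs]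
  rw [Fin.sum_univ_three]

theorem offAxis_open : IsOpen offAxis := by
  unfold offAxis
  exact isOpen_ball.inter gpt_pos_open

theorem rg_open (p : ℝ × ℝ) (l : ℝ) : IsOpen (rg p l) := by
  unfold rg
  exact (isOpen_lt ((rho_cont.sub continuous_const).abs) continuous_const).inter
    (isOpen_lt ((gpt_zp0_cont.sub continuous_const).abs) continuous_const)

theorem meas_ind {n : ℕ} {U : Set (E n)} {f : E n → ℝ} (hU : MeasurableSet U)
    (hf : ContinuousOn f U) : Measurable (U.indicator f) := by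
  classical
  rw [← piecewise_eq_indicator]
  exact ContinuousOn.measurable_piecewise hf continuousOn_const hU

theorem lint_ind {n : ℕ} {U S : Set (E n)} {f : E n → ℝ} (hU : MeasurableSet U) :
    ∫⁻ x in S, ENNReal.ofReal (U.indicator f x) = ∫⁻ x in S ∩ U, ENNReal.ofReal (f x) := by
  have h1 : (fun x => ENNReal.ofReal (U.indicator f x)) =
      U.indicator fun x => ENNReal.ofReal (f x) := by
    funext x
    by_cases hx : x ∈ U
    · rw [indicator_of_mem hx, indicator_of_mem hx]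
    · rw [indicator_of_notMem hx, indicator_of_notMem hx, ENNReal.ofReal_zero]
  rw [h1, lintegral_indicator hU, Measure.restrict_restrict hU, inter_comm]

theorem pf_BPT (hJGN : T_JGN) (hJGI : T_JGI) (hAVG : T_AVG) (hRNG : T_RNG) : T_BPT := by
  intro m N A P Λ hN hA hP hΛ
  obtain ⟨F, hF, hrng⟩ := hRNG m N A P Λ hN hA hP hΛ
  obtain ⟨C, hC, hjgi⟩ := hJGI
  have hc0 : (0 : ℝ) < c0 := by unfold c0; norm_num
  refine ⟨200 * (F * (4 / c0) * C), by positivity, ?_⟩
  intro u hu hen ν hν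
  obtain ⟨hJ0, hJC, -, -, hJcmp⟩ := hJGN ν hν
  have hJc := gpt_Jx_cont hJGN hν
  -- the sets
  set V : Set (E (1 + 2)) := {x | x ∈ ball (0 : E (1 + 2)) 1 ∧ 0 < rho x ∧ c0 / 2 < Jx ν x}
    with hV
  have hVo : IsOpen V := by
    have h1 : V = ball (0 : E (1 + 2)) 1 ∩ ({x : E (1 + 2) | 0 < rho x} ∩
        Jx ν ⁻¹' Ioi (c0 / 2)) := by
      ext x
      simp [hV]
    rw [h1]
    exact isOpen_ball.inter (hJc.isOpen_inter_preimage gpt_pos_open isOpen_Ioi)
  have hVs : V ⊆ offAxis := fun x hx => ⟨ball_subset_ball (by norm_num) hx.1, hx.2.1⟩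
  have hpo : IsOpen {p : ℝ × ℝ | 0 < p.1} := isOpen_lt continuous_const continuous_fst
  set V' : Set (ℝ × ℝ) := {p | p ∈ hbl ∧ c0 / 4 < Jn ν p.1 p.2} with hV'
  have hV'o : IsOpen V' := by
    have h1 : V' = {p : ℝ × ℝ | p.1 ^ 2 + p.2 ^ 2 < (5 / 4) ^ 2} ∩ ({p : ℝ × ℝ | 0 < p.1} ∩
        (fun p : ℝ × ℝ => Jn ν p.1 p.2) ⁻¹' Ioi (c0 / 4)) := by
      ext p
      simp only [hV', hbl, mem_setOf_eq, mem_inter_iff, mem_preimage, mem_Ioi]
      tauto
    rw [h1]
    refine IsOpen.inter (isOpen_lt (by fun_prop) continuous_const) ?_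
    exact hJC.continuousOn.isOpen_inter_preimage hpo isOpen_Ioi
  have hhc : ContinuousOn (fun x => Real.sqrt (hsq u x)) offAxis :=
    (hsq_cont offAxis_open hu.smooth).sqrt
  have hhm : Measurable (fun x => ENNReal.ofReal
      (offAxis.indicator (fun x => Real.sqrt (hsq u x)) x)) :=
    (meas_ind offAxis_open.measurableSet hhc).ennreal_ofReal
  have key := hAVG (fun x => ENNReal.ofReal
      (offAxis.indicator (fun x => Real.sqrt (hsq u x)) x)) V V' hhm hVo.measurableSet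
      hV'o.measurableSet (fun x hx => hx.2.1) (by
    intro x hx p hp hxp
    obtain ⟨h1, h2⟩ := hxp
    have h3 : rho x ^ 2 + (zp x 0) ^ 2 < 1 := by
      rw [← norm_sq_rz]
      have h4 := mem_ball_zero_iff.1 hx.1
      have h5 := norm_nonneg x
      nlinarith
    have h4 : 0 < rho x := hx.2.1
    have h1' := abs_lt.1 h1
    have h2' := abs_lt.1 h2
    have h5 : rho x < 1 := by nlinarith [sq_nonneg (zp x 0)]
    have h6 : |zp x 0| < 1 := by
      rw [← sq_lt_one_iff_abs_lt_one]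
      nlinarith [sq_nonneg (rho x)]
    have h6' := abs_lt.1 h6
    have h7 : p.1 ≤ 16 / 15 * rho x := by linarith [h1'.1]
    have h8 : p.1 < 16 / 15 := by linarith
    have h9 : |p.2| ≤ |zp x 0| + 1 / 15 := by
      have h10 : |p.2| ≤ |zp x 0| + |zp x 0 - p.2| := by
        have := abs_sub_abs_le_abs_sub p.2 (zp x 0)
        rw [abs_sub_comm p.2] at this
        linarith
      linarith
    refine ⟨⟨hp, ?_⟩, ?_⟩
    · have h10 : p.1 ≤ rho x + 1 / 15 := by linarith
      have h11 : p.1 ^ 2 ≤ (rho x + 1 / 15) ^ 2 := by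
        apply pow_le_pow_left₀ hp.le h10
      have h12 : p.2 ^ 2 ≤ (|zp x 0| + 1 / 15) ^ 2 := by
        rw [← sq_abs p.2]
        exact pow_le_pow_left₀ (abs_nonneg _) h9 2
      have h13 : |zp x 0| ^ 2 = (zp x 0) ^ 2 := sq_abs _
      nlinarith
    · have h10 := hJcmp (rho x) p.1 (zp x 0) p.2 h4 hp (by linarith) (by linarith)
      have h11 : c0 / 2 < Jn ν (rho x) (zp x 0) := hx.2.2
      linarith)
  have hL : hInt u V = ∫⁻ x in V, ENNReal.ofReal
      (offAxis.indicator (fun x => Real.sqrt (hsq u x)) x) := by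
    rw [lint_ind offAxis_open.measurableSet, inter_eq_left.2 hVs]
    rfl
  rw [hL]
  refine key.trans ?_
  have hV'p : V' ∩ {p : ℝ × ℝ | 0 < p.1} ⊆ {p : ℝ × ℝ | 0 < p.1} := inter_subset_right
  have h20 : ∫⁻ p in V' ∩ {p : ℝ × ℝ | 0 < p.1}, ENNReal.ofReal (1 / p.1 ^ 2) *
      ∫⁻ x in rg p (1 / 16), ENNReal.ofReal
        (offAxis.indicator (fun x => Real.sqrt (hsq u x)) x) ≤
      ∫⁻ p in {p : ℝ × ℝ | 0 < p.1}, ENNReal.ofReal (F * (4 / c0)) *
        ENNReal.ofReal (Jn ν p.1 p.2 / p.1) := by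
    refine le_trans ?_ (lintegral_mono_set hV'p)
    refine setLIntegral_mono' (hV'o.inter hpo).measurableSet fun p hp => ?_
    have hp0 : 0 < p.1 := hp.2
    rw [lint_ind offAxis_open.measurableSet]
    have h21 := hrng u hu p hp.1.1 (hen p hp.1.1)
    have h22 : c0 / 4 < Jn ν p.1 p.2 := hp.1.2
    calc ENNReal.ofReal (1 / p.1 ^ 2) *
        ∫⁻ x in rg p (1 / 16) ∩ offAxis, ENNReal.ofReal (Real.sqrt (hsq u x))
        ≤ ENNReal.ofReal (1 / p.1 ^ 2) * ENNReal.ofReal (F * p.1) := mul_le_mul' le_rfl h21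
      _ = ENNReal.ofReal (1 / p.1 ^ 2 * (F * p.1)) :=
          (ENNReal.ofReal_mul (by positivity)).symm
      _ ≤ ENNReal.ofReal (F * (4 / c0) * (Jn ν p.1 p.2 / p.1)) := by
          refine ENNReal.ofReal_le_ofReal ?_
          have h23 : 1 / p.1 ^ 2 * (F * p.1) = F * 1 * (1 / p.1) := by
            field_simp
          have h24 : F * (4 / c0) * (Jn ν p.1 p.2 / p.1) =
              F * (4 / c0 * Jn ν p.1 p.2) * (1 / p.1) := by ring
          rw [h23, h24]
          refine mul_le_mul_of_nonneg_right (mul_le_mul_of_nonneg_left ?_ hF) (by positivity)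
          rw [div_mul_eq_mul_div, le_div_iff₀ hc0]
          linarith
      _ = _ := ENNReal.ofReal_mul (by positivity)
  have h30 : ∫⁻ p in {p : ℝ × ℝ | 0 < p.1}, ENNReal.ofReal (Jn ν p.1 p.2 / p.1) ≤
      ENNReal.ofReal C * ν univ := by
    have h31 : {p : ℝ × ℝ | 0 < p.1} = Ioi (0 : ℝ) ×ˢ (univ : Set ℝ) := by
      ext p
      simp
    have h32 : ContinuousOn (fun p : ℝ × ℝ => Jn ν p.1 p.2 / p.1) {p : ℝ × ℝ | 0 < p.1} :=
      hJC.continuousOn.div continuous_fst.continuousOn fun p hp => ne_of_gt hp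
    have h33 : AEMeasurable (fun p : ℝ × ℝ => ENNReal.ofReal (Jn ν p.1 p.2 / p.1))
        (((volume : Measure ℝ).restrict (Ioi 0)).prod ((volume : Measure ℝ).restrict univ)) := by
      rw [Measure.prod_restrict, ← h31]
      exact (h32.aemeasurable hpo.measurableSet).ennreal_ofReal
    have h34 : (volume : Measure (ℝ × ℝ)).restrict {p : ℝ × ℝ | 0 < p.1} =
        ((volume : Measure ℝ).restrict (Ioi 0)).prod ((volume : Measure ℝ).restrict univ) := by
      rw [Measure.prod_restrict, ← h31]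
      rfl
    rw [h34, lintegral_prod_symm _ h33, Measure.restrict_univ]
    exact hjgi ν hν
  have h40 : ∫⁻ p in {p : ℝ × ℝ | 0 < p.1}, ENNReal.ofReal (F * (4 / c0)) *
        ENNReal.ofReal (Jn ν p.1 p.2 / p.1) ≤
      ENNReal.ofReal (F * (4 / c0)) * (ENNReal.ofReal C * ν univ) := by
    rw [lintegral_const_mul' _ _ ENNReal.ofReal_ne_top]
    exact mul_le_mul' le_rfl h30
  calc _ ≤ 200 * (ENNReal.ofReal (F * (4 / c0)) * (ENNReal.ofReal C * ν univ)) :=
        mul_le_mul' le_rfl (h20.trans h40)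
    _ = ENNReal.ofReal (200 * (F * (4 / c0) * C)) * ν univ := by
        rw [ENNReal.ofReal_mul (by norm_num : (0 : ℝ) ≤ 200),
          ENNReal.ofReal_mul (by positivity : 0 ≤ F * (4 / c0))]
        simp only [mul_assoc]
        congr 1
        simp

end Pool.Agent.H87.AX
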