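import Pool.Agent.H87.AX.Done0
import Pool.Agent.H42.AX.MVX
import Pool.Agent.H42.AX.STT

/-! Collection of the finished rows of the board axs (MP_2697e3_an), second part. -/

namespace Pool.Agent.H87.AX

open Pool.Agent.H87.SN Pool.Agent.H87.SH

theorem f_MVX : T_MVX := Pool.Agent.H42.AX.pf_MVX f_PHI f_IBP f_GRN
theorem f_STT : T_STT := Pool.Agent.H42.AX.pf_STT f_IBP
theorem f_AXS : T_AXS := g_AXS f_MVX f_STT

end Pool.Agent.H87.AX
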