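import Pool.Agent.H87.AX.Targets4
import Pool.Agent.H87.SH.HLF

/-! Row EP2 of the board axs (MP_2697e3_an): small energy and small tension imply a small gradient
in the plane. -/

namespace Pool.Agent.H87.AX

open MeasureTheory Metric Set Filter Topology Pool.Agent.H87.SN Pool.Agent.H87.SH
open scoped ContDiff RealInnerProductSpace ENNReal

theorem ep2_X {m : ℕ} {L T : ℝ} {v : E 2 → E m} (hv : TM m L T (ball 0 1) v) (hT0 : 0 ≤ T)
    {y : E 2} (hy : y ∈ ball (0 : E 2) 1) {q B : ℝ} (hq0 : 0 ≤ q)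
    (hB : B = 2 * T * (1 + 2 * q) * (2 * q)) (h8 : en v y ≤ (2 * q) ^ 2) :
    ∑ i : Fin 2, (2 * ⟪fderiv ℝ v y (bv i), lap v y⟫) ^ 2 ≤ B ^ 2 := by
  have hs : Real.sqrt (en v y) ≤ 2 * q := Real.sqrt_le_iff.2 ⟨by positivity, h8⟩
  have h1 : ∀ i : Fin 2, (2 * ⟪fderiv ℝ v y (bv i), lap v y⟫) ^ 2 ≤
      (2 * T * (1 + 2 * q)) ^ 2 * ‖fderiv ℝ v y (bv i)‖ ^ 2 := by
    intro i
    have h2 := hv.tan y hy (bv i)
    have h3 : T * (1 + Real.sqrt (en v y)) * ‖fderiv ℝ v y (bv i)‖ ≤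
        T * (1 + 2 * q) * ‖fderiv ℝ v y (bv i)‖ := by
      gcongr
    have h4 : |⟪fderiv ℝ v y (bv i), lap v y⟫| ^ 2 ≤
        (T * (1 + 2 * q) * ‖fderiv ℝ v y (bv i)‖) ^ 2 :=
      pow_le_pow_left₀ (abs_nonneg _) (h2.trans h3) 2
    rw [sq_abs] at h4
    calc (2 * ⟪fderiv ℝ v y (bv i), lap v y⟫) ^ 2 =
          4 * ⟪fderiv ℝ v y (bv i), lap v y⟫ ^ 2 := by ring
      _ ≤ 4 * (T * (1 + 2 * q) * ‖fderiv ℝ v y (bv i)‖) ^ 2 := by linarith
      _ = _ := by ring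
  calc ∑ i : Fin 2, (2 * ⟪fderiv ℝ v y (bv i), lap v y⟫) ^ 2 ≤
        ∑ i : Fin 2, (2 * T * (1 + 2 * q)) ^ 2 * ‖fderiv ℝ v y (bv i)‖ ^ 2 :=
        Finset.sum_le_sum fun i _ => h1 i
    _ = (2 * T * (1 + 2 * q)) ^ 2 * en v y := by
        rw [← Finset.mul_sum]
        rfl
    _ ≤ (2 * T * (1 + 2 * q)) ^ 2 * (2 * q) ^ 2 :=
        mul_le_mul_of_nonneg_left h8 (sq_nonneg _)
    _ = B ^ 2 := by rw [hB]; ring

theorem ep2_lap {m : ℕ} {L T : ℝ} {v : E 2 → E m} (hv : TM m L T (ball 0 1) v)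
    (hx2 : ∀ i : Fin 2, ContDiffOn ℝ ∞ (fun y => ⟪fderiv ℝ v y (bv i), lap v y⟫) (ball 0 1))
    (hx3 : ∀ x ∈ ball (0 : E 2) 1, lap (en v) x = 2 * (hsq v x - ‖lap v x‖ ^ 2) +
      2 * ∑ i : Fin 2, fderiv ℝ (fun y => ⟪fderiv ℝ v y (bv i), lap v y⟫) x (bv i))
    {y : E 2} (hy' : y ∈ ball (0 : E 2) 1) {e0 : ℝ} (h8 : en v y ≤ 4 * e0) :
    - (16 * L ^ 2 * e0 * en v y) - 4 * L ^ 2 +
      ∑ i : Fin 2, fderiv ℝ ((fun i y => 2 * ⟪fderiv ℝ v y (bv i), lap v y⟫) i) y (bv i) ≤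
      lap (en v) y := by
  have h1 := hx3 y hy'
  have h2 : ∀ i : Fin 2, fderiv ℝ (fun y => 2 * ⟪fderiv ℝ v y (bv i), lap v y⟫) y (bv i) =
      2 * fderiv ℝ (fun y => ⟪fderiv ℝ v y (bv i), lap v y⟫) y (bv i) := by
    intro i
    have h3 : DifferentiableAt ℝ (fun y => ⟪fderiv ℝ v y (bv i), lap v y⟫) y :=
      ((hx2 i).differentiableOn (by norm_num)).differentiableAt (isOpen_ball.mem_nhds hy')
    rw [fderiv_const_mul h3]
    rfl
  rw [Finset.sum_congr rfl fun i _ => h2 i, ← Finset.mul_sum, h1]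
  have h4 := hsq_nonneg v y
  have h5 := hv.lapb y hy'
  have h6 : ‖lap v y‖ ^ 2 ≤ (L * (1 + en v y)) ^ 2 :=
    pow_le_pow_left₀ (norm_nonneg _) h5 2
  have h7 := en_nonneg v y
  have h9 : en v y ^ 2 ≤ 4 * e0 * en v y := by
    rw [sq]
    exact mul_le_mul_of_nonneg_right h8 h7
  have h10 : (1 + en v y) ^ 2 ≤ 2 + 8 * e0 * en v y := by
    have h13 := sq_nonneg (1 - en v y)
    have h14 : (1 + en v y) ^ 2 = 2 + 2 * en v y ^ 2 - (1 - en v y) ^ 2 := by ring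
    linarith
  have h11 : (L * (1 + en v y)) ^ 2 ≤ L ^ 2 * (2 + 8 * e0 * en v y) := by
    rw [mul_pow]
    exact mul_le_mul_of_nonneg_left h10 (sq_nonneg _)
  have h12 : L ^ 2 * (2 + 8 * e0 * en v y) = 2 * L ^ 2 + 8 * L ^ 2 * e0 * en v y := by ring
  linarith


theorem ep2_fin {C D κ e0 q t T L B ε : ℝ} (hC : 0 < C) (hD0 : 0 < D) (he0p : 0 < e0)
    (he0D : D / 16 ≤ e0) (hD1 : D ≤ 1) (hκ0 : 0 < κ) (hκ3 : κ * (4096 * (C * L ^ 2 + 1)) ≤ D ^ 2)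
    (hκle1 : κ ≤ 1) (ht0 : 0 < t) (ht2' : t ^ 2 * e0 = κ) (hq0 : 0 ≤ q) (hq2 : q ^ 2 = e0)
    (hT : T = D / 16 / (48 * (C + 1))) (hB : B = 2 * T * (1 + 2 * q) * (2 * q))
    (hε : ε = κ / (4 * (C + 1)))
    (h20 : t ^ 2 * (e0 - C * (t ^ 2 * (4 * L ^ 2) + t * B)) ≤ C * ε) : False := by
  -- the three errors
  have hE1 : C * (t ^ 2 * (4 * L ^ 2)) ≤ e0 / 4 := by
    have h1 : C * (t ^ 2 * (4 * L ^ 2)) * e0 ≤ e0 / 4 * e0 := by
      calc C * (t ^ 2 * (4 * L ^ 2)) * e0 = 4 * (C * L ^ 2) * κ := by rw [← ht2']; ring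
        _ ≤ e0 / 4 * e0 := by
          have h2 : (D / 16) ^ 2 ≤ e0 ^ 2 := pow_le_pow_left₀ (by positivity) he0D 2
          have h3 : κ * (4096 * (C * L ^ 2 + 1)) = 4096 * (C * L ^ 2 * κ) + 4096 * κ := by ring
          have h4 : (D / 16) ^ 2 = D ^ 2 / 256 := by ring
          have h5 : e0 / 4 * e0 = e0 ^ 2 / 4 := by ring
          rw [h4] at h2
          rw [h5]
          linarith
    exact le_of_mul_le_mul_right h1 he0p
  have htq : t * q ≤ 1 := by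
    have h1 : (t * q) ^ 2 ≤ 1 := by
      rw [mul_pow, hq2, ht2']
      exact hκle1
    have h2 : 0 ≤ t * q := by positivity
    exact (sq_le_sq₀ h2 zero_le_one).1 (by rw [one_pow]; exact h1)
  have hE2 : C * (t * B) ≤ e0 / 4 := by
    have h1 : 1 ≤ e0 / (D / 16) := by
      rw [le_div_iff₀ (by positivity)]
      linarith
    have h2 : q ≤ e0 / (D / 16) := by
      rw [le_div_iff₀ (by positivity)]
      have h3 : D / 16 ≤ q := by
        have h4 : (D / 16) ^ 2 ≤ q ^ 2 := by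
          rw [hq2, sq]
          exact (mul_le_of_le_one_right (by positivity) (by linarith)).trans he0D
        exact (sq_le_sq₀ (by positivity) hq0).1 h4
      rw [← hq2, sq]
      exact mul_le_mul_of_nonneg_left h3 hq0
    have h5 : C * (t * B) = 4 * (C * T) * (t * q) * (1 + 2 * q) := by rw [hB]; ring
    have h6 : 1 + 2 * q ≤ 3 * (e0 / (D / 16)) := by linarith
    have h7 : C * T ≤ D / 16 / 48 := by
      rw [hT, mul_div_assoc', div_le_div_iff₀ (by positivity) (by norm_num)]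
      linarith
    rw [h5]
    calc 4 * (C * T) * (t * q) * (1 + 2 * q) ≤ 4 * (D / 16 / 48) * 1 *
          (3 * (e0 / (D / 16))) := by gcongr
      _ = e0 / 4 := by
          field_simp
          norm_num
  have hE3 : C * ε ≤ κ / 4 := by
    rw [hε, mul_div_assoc', div_le_div_iff₀ (by positivity) (by norm_num)]
    linarith
  have h30 : t ^ 2 * (e0 / 2) ≤ κ / 4 := by
    have h31 : e0 / 2 ≤ e0 - C * (t ^ 2 * (4 * L ^ 2) + t * B) := by
      rw [mul_add]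
      linarith
    calc t ^ 2 * (e0 / 2) ≤ t ^ 2 * (e0 - C * (t ^ 2 * (4 * L ^ 2) + t * B)) := by gcongr
      _ ≤ C * ε := h20
      _ ≤ κ / 4 := hE3
  have h32 : t ^ 2 * (e0 / 2) = κ / 2 := by rw [← ht2']; ring
  rw [h32] at h30
  linarith

theorem pf_EP2 (hBX : T_BX) (hMVX : T_MVX) : T_EP2 := by
  intro m L δ hL hδ
  obtain ⟨C, hC, hmv⟩ := hMVX 2
  obtain ⟨D, hD⟩ : ∃ D : ℝ, D = (min δ 1) ^ 2 := ⟨_, rfl⟩
  have hm0 : 0 < min δ 1 := lt_min hδ one_pos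
  have hD0 : 0 < D := by rw [hD]; positivity
  have hD1 : D ≤ 1 := by rw [hD]; exact pow_le_one₀ hm0.le (min_le_right _ _)
  have hDδ : D ≤ δ ^ 2 := by rw [hD]; exact pow_le_pow_left₀ hm0.le (min_le_left _ _) 2
  obtain ⟨κ, hκ⟩ : ∃ κ : ℝ, κ = min (D / 64) (min (1 / (L ^ 2 + 1))
      (D ^ 2 / (4096 * (C * L ^ 2 + 1)))) := ⟨_, rfl⟩
  have hκ0 : 0 < κ := by
    rw [hκ]
    exact lt_min (by positivity) (lt_min (by positivity) (by positivity))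
  have hκ1 : κ ≤ D / 64 := by rw [hκ]; exact min_le_left _ _
  have hκ2 : κ * (L ^ 2 + 1) ≤ 1 := by
    have h1 : κ ≤ 1 / (L ^ 2 + 1) := by
      rw [hκ]
      exact (min_le_right _ _).trans (min_le_left _ _)
    rwa [le_div_iff₀ (by positivity)] at h1
  have hκ3 : κ * (4096 * (C * L ^ 2 + 1)) ≤ D ^ 2 := by
    have h1 : κ ≤ D ^ 2 / (4096 * (C * L ^ 2 + 1)) := by
      rw [hκ]
      exact (min_le_right _ _).trans (min_le_right _ _)
    rwa [le_div_iff₀ (by positivity)] at h1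
  have hκle1 : κ ≤ 1 := by linarith
  refine ⟨κ / (4 * (C + 1)), D / 16 / (48 * (C + 1)), by positivity, by positivity, ?_⟩
  intro v hv hen y1 hy1
  obtain ⟨T, hT⟩ : ∃ T : ℝ, T = D / 16 / (48 * (C + 1)) := ⟨_, rfl⟩
  obtain ⟨ε, hε⟩ : ∃ ε : ℝ, ε = κ / (4 * (C + 1)) := ⟨_, rfl⟩
  rw [← hT] at hv
  rw [← hε] at hen
  have hT0 : 0 < T := by rw [hT]; positivity
  have hε0 : 0 < ε := by rw [hε]; positivity
  refine le_trans ?_ hDδ
  by_contra hcon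
  push Not at hcon
  have henc : ContinuousOn (en v) (ball (0 : E 2) 1) := en_cont isOpen_ball hv.smooth
  have hcb : closedBall (0 : E 2) (3 / 4) ⊆ ball 0 1 := closedBall_subset_ball (by norm_num)
  have hgc : ContinuousOn (fun y : E 2 => (3 / 4 - ‖y‖) ^ 2 * en v y) (closedBall 0 (3 / 4)) :=
    ((continuous_const.sub continuous_norm).pow 2).continuousOn.mul (henc.mono hcb)
  obtain ⟨y0, hy0, hmax⟩ := (isCompact_closedBall (0 : E 2) (3 / 4)).exists_isMaxOn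
    ⟨0, mem_closedBall_self (by norm_num)⟩ hgc
  have hmax' : ∀ y ∈ closedBall (0 : E 2) (3 / 4),
      (3 / 4 - ‖y‖) ^ 2 * en v y ≤ (3 / 4 - ‖y0‖) ^ 2 * en v y0 := fun y hy => hmax hy
  have hy0n : ‖y0‖ ≤ 3 / 4 := mem_closedBall_zero_iff.1 hy0
  have hy1n : ‖y1‖ < 1 / 2 := mem_ball_zero_iff.1 hy1
  obtain ⟨s, hs⟩ : ∃ s : ℝ, s = (3 / 4 - ‖y0‖) / 2 := ⟨_, rfl⟩
  obtain ⟨e0, he0⟩ : ∃ e0 : ℝ, e0 = en v y0 := ⟨_, rfl⟩
  have hs2 : 3 / 4 - ‖y0‖ = 2 * s := by rw [hs]; ring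
  have hsn : 0 ≤ s := by rw [hs]; linarith
  have hs38 : s ≤ 3 / 8 := by rw [hs]; linarith [norm_nonneg y0]
  have hg : D / 16 ≤ 4 * s ^ 2 * e0 := by
    have h1 := hmax' y1 (mem_closedBall_zero_iff.2 (by linarith))
    rw [hs2, ← he0] at h1
    have h2 : (1 / 4 : ℝ) ^ 2 ≤ (3 / 4 - ‖y1‖) ^ 2 :=
      pow_le_pow_left₀ (by norm_num) (by linarith) 2
    calc D / 16 = (1 / 4 : ℝ) ^ 2 * D := by ring
      _ ≤ (3 / 4 - ‖y1‖) ^ 2 * en v y1 := mul_le_mul h2 hcon.le hD0.le (sq_nonneg _)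
      _ ≤ (2 * s) ^ 2 * e0 := h1
      _ = 4 * s ^ 2 * e0 := by ring
  have he00 : 0 ≤ e0 := by rw [he0]; exact en_nonneg v y0
  have he0D : D / 16 ≤ e0 := by
    have h1 : s ^ 2 ≤ (3 / 8) ^ 2 := pow_le_pow_left₀ hsn hs38 2
    have h2 : 4 * s ^ 2 ≤ 1 := by linarith
    have h3 := mul_le_mul_of_nonneg_right h2 he00
    linarith
  have he0p : 0 < e0 := by linarith
  have hsp : 0 < s := by
    rcases hsn.eq_or_lt with h | h
    · rw [← h] at hg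
      norm_num at hg
      linarith
    · exact h
  -- the bound on the ball of radius s
  have hle4 : ∀ y ∈ ball y0 s, y ∈ ball (0 : E 2) 1 ∧ en v y ≤ 4 * e0 := by
    intro y hy
    rw [mem_ball, dist_eq_norm] at hy
    have h1 : ‖y‖ ≤ ‖y - y0‖ + ‖y0‖ := by
      have := norm_add_le (y - y0) y0
      simpa using this
    have h2 : s ≤ 3 / 4 - ‖y‖ := by linarith
    refine ⟨mem_ball_zero_iff.2 (by linarith), ?_⟩
    have h3 := hmax' y (mem_closedBall_zero_iff.2 (by linarith))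
    rw [hs2, ← he0] at h3
    have h4 : s ^ 2 ≤ (3 / 4 - ‖y‖) ^ 2 := pow_le_pow_left₀ hsn h2 2
    have h5 := en_nonneg v y
    have h6 : s ^ 2 * en v y ≤ s ^ 2 * (4 * e0) := by
      have h7 := mul_le_mul_of_nonneg_right h4 h5
      have h8 : (2 * s) ^ 2 * e0 = s ^ 2 * (4 * e0) := by ring
      linarith
    exact le_of_mul_le_mul_left h6 (by positivity)
  -- the small radius
  obtain ⟨t, ht⟩ : ∃ t : ℝ, t = Real.sqrt (κ / e0) := ⟨_, rfl⟩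
  have ht0 : 0 < t := by rw [ht]; exact Real.sqrt_pos.2 (by positivity)
  have ht2 : t ^ 2 = κ / e0 := by rw [ht, Real.sq_sqrt (by positivity)]
  have ht2' : t ^ 2 * e0 = κ := by rw [ht2]; field_simp
  have hts : t ≤ s := by
    rw [ht]
    apply Real.sqrt_le_iff.2
    refine ⟨hsn, ?_⟩
    rw [div_le_iff₀ he0p]
    linarith
  have hbt : ball y0 t ⊆ ball y0 s := ball_subset_ball hts
  have hb1 : ball y0 t ⊆ ball (0 : E 2) 1 := fun y hy => (hle4 y (hbt hy)).1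
  obtain ⟨hx1, hx2, hx3⟩ := hBX 2 m (ball 0 1) v isOpen_ball hv.smooth
  obtain ⟨q, hq⟩ : ∃ q : ℝ, q = Real.sqrt e0 := ⟨_, rfl⟩
  have hq0 : 0 ≤ q := by rw [hq]; exact Real.sqrt_nonneg _
  have hq2 : q ^ 2 = e0 := by rw [hq, Real.sq_sqrt he00]
  obtain ⟨B, hB⟩ : ∃ B : ℝ, B = 2 * T * (1 + 2 * q) * (2 * q) := ⟨_, rfl⟩
  have hB0 : 0 ≤ B := by rw [hB]; positivity
  have key := hmv (en v) (fun i y => 2 * ⟪fderiv ℝ v y (bv i), lap v y⟫) y0 t (16 * L ^ 2 * e0)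
    (4 * L ^ 2) B ht0 (contDiffOn_infty.1 (hx1.mono hb1) 2)
    (fun i => contDiffOn_const.mul (contDiffOn_infty.1 ((hx2 i).mono hb1) 1))
    (fun y _ => en_nonneg v y) (by positivity) (by
      have h1 : 16 * L ^ 2 * e0 * t ^ 2 = 16 * (L ^ 2 * κ) := by
        rw [← ht2']
        ring
      have h2 : κ * (L ^ 2 + 1) = L ^ 2 * κ + κ := by ring
      rw [h1]
      linarith) (by positivity) hB0 (fun y hy => ep2_X hv hT0.le (hb1 hy) hq0 hB
      (by rw [mul_pow, hq2]; norm_num; exact (hle4 y (hbt hy)).2)) (fun y hy => ep2_lap hv hx2 hx3 (hb1 hy) (hle4 y (hbt hy)).2)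
  have h20 : t ^ 2 * (e0 - C * (t ^ 2 * (4 * L ^ 2) + t * B)) ≤ C * ε := by
    have h21 : ENNReal.ofReal (t ^ 2 * (e0 - C * (t ^ 2 * (4 * L ^ 2) + t * B))) ≤
        ENNReal.ofReal (C * ε) := by
      rw [he0]
      refine key.trans ?_
      rw [ENNReal.ofReal_mul hC.le]
      exact mul_le_mul' le_rfl ((lintegral_mono_set hb1).trans hen)
    exact (ENNReal.ofReal_le_ofReal_iff (by positivity)).1 h21
  exact ep2_fin hC hD0 he0p he0D hD1 hκ0 hκ3 hκle1 ht0 ht2' hq0 hq2 hT hB hε h20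

end Pool.Agent.H87.AX
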