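import Pool.Agent.H87.AX.Targets4
import Pool.Agent.H89.SH.SCH

/-! Row EPS of the board axs (MP_2697e3_an): small energy implies a small gradient. -/

namespace Pool.Agent.H87.AX

open MeasureTheory Metric Set Filter Topology Pool.Agent.H87.SN Pool.Agent.H87.SH
open scoped ContDiff RealInnerProductSpace ENNReal

theorem pf_EPS (hPHI : T_PHI) (hSCH : T_SCH) (hMVI : T_MVI) (hBO1 : T_BO1) : T_EPS := by
  intro d m L δ hL hδ
  obtain ⟨c, hc, hsch⟩ := hSCH (d + 2) m L (by omega) hL
  obtain ⟨C, hC, hmvi⟩ := hMVI (d + 2)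
  obtain ⟨k, hk⟩ : ∃ k : ℝ, k = min 1 (2 / (L + 1)) := ⟨_, rfl⟩
  have hk0 : 0 < k := by rw [hk]; exact lt_min one_pos (by positivity)
  have hk1 : k ≤ 1 := by rw [hk]; exact min_le_left _ _
  have hkL : L * k ≤ 2 := by
    have h1 : k ≤ 2 / (L + 1) := by rw [hk]; exact min_le_right _ _
    rw [le_div_iff₀ (by positivity)] at h1
    nlinarith
  obtain ⟨ε, hε⟩ : ∃ ε : ℝ, ε = min (c / 2 * (8 / 9) ^ d) (δ ^ 2 * (k / 9) ^ (d + 2) / C) :=
    ⟨_, rfl⟩
  have hε0 : 0 < ε := by rw [hε]; exact lt_min (by positivity) (by positivity)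
  refine ⟨ε, hε0, ?_⟩
  intro u x r hr hHM hen
  have henc : ContinuousOn (en u) (ball x r) := by
    have h1 : ContDiffOn ℝ ∞ (fderiv ℝ u) (ball x r) :=
      hHM.smooth.fderiv_of_isOpen isOpen_ball (by norm_num)
    have h3 : ContinuousOn (fderiv ℝ u) (ball x r) := h1.continuousOn
    unfold en nsq
    exact continuousOn_finsetSum _ fun i _ => ((h3.clm_apply continuousOn_const).norm.pow 2)
  have henn : ∀ y, 0 ≤ en u y := fun y => Pool.Agent.H89.SH.en_nonneg u y
  -- the weighted energy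
  obtain ⟨R, hR⟩ : ∃ R : ℝ, R = 8 * (r / 9) := ⟨_, rfl⟩
  have hR0 : 0 < R := by rw [hR]; positivity
  have hRr : R < r := by rw [hR]; linarith
  have hcb : closedBall x R ⊆ ball x r := closedBall_subset_ball hRr
  have hci : IntegrableOn (en u) (closedBall x R) :=
    (henc.mono hcb).integrableOn_compact (isCompact_closedBall x R)
  have hbi : IntegrableOn (en u) (ball x R) := hci.mono_set ball_subset_closedBall
  have hth : theta u x (8 * (r / 9)) < c := by
    rw [← hR, Pool.Agent.H89.SH.theta_eq u x R hR0]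
    have h1 := Pool.Agent.H89.SH.upper hPHI u (ball x r) henc x R hR0 hcb (ball x R)
      measurableSet_ball le_rfl hbi
    have h2 : ∫ y in ball x R, en u y ≤ ε * r ^ d := by
      rw [integral_eq_lintegral_of_nonneg_ae (Eventually.of_forall fun y => henn y)
        hbi.aestronglyMeasurable]
      refine ENNReal.toReal_le_of_le_ofReal (by positivity) ?_
      exact (lintegral_mono_set (ball_subset_ball hRr.le)).trans hen
    have h3 : R ^ 2 / R ^ (d + 2) = 1 / R ^ d := by
      rw [pow_add]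
      field_simp
    rw [h3]
    have h4 : ε ≤ c / 2 * (8 / 9) ^ d := by rw [hε]; exact min_le_left _ _
    have h5 : R ^ d = (8 / 9) ^ d * r ^ d := by
      rw [hR, ← mul_pow]
      congr 1
      ring
    calc 1 / R ^ d * ∫ y, en u y * phi (R⁻¹ • (y - x)) ≤ 1 / R ^ d * (ε * r ^ d) :=
          mul_le_mul_of_nonneg_left (h1.trans h2) (by positivity)
      _ ≤ 1 / R ^ d * (c / 2 * (8 / 9) ^ d * r ^ d) := by gcongr
      _ = c / 2 := by
          rw [h5]
          field_simp
      _ < c := by linarith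
  have hpt := hsch u x (r / 9) r (by positivity) (by linarith) hHM hth
  -- the mean value inequality
  obtain ⟨s, hs⟩ : ∃ s : ℝ, s = k * (r / 9) := ⟨_, rfl⟩
  have hs0 : 0 < s := by rw [hs]; positivity
  have hs1 : s ≤ r / 9 := by
    rw [hs]
    have : 0 < r / 9 := by positivity
    nlinarith
  have hsr : ball x s ⊆ ball x r := ball_subset_ball (by linarith)
  have hs9 : ball x s ⊆ ball x (r / 9) := ball_subset_ball hs1
  obtain ⟨hb1, hb2⟩ := hBO1 (d + 2) m (ball x r) u isOpen_ball hHM.smooth hHM.orth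
  have h10 := hmvi (en u) x s (2 * L ^ 2 / (r / 9) ^ 2) hs0
    (contDiffOn_infty.1 (hb1.mono hsr) 2) (fun y _ => henn y) (by positivity) (by
      rw [hs, mul_pow, div_mul_eq_mul_div, div_le_iff₀ (by positivity)]
      have h11 : (L * k) ^ 2 ≤ 2 ^ 2 := pow_le_pow_left₀ (by positivity) hkL 2
      have h12 : 0 < (r / 9) ^ 2 := by positivity
      nlinarith) (by
      intro y hy
      have h11 : lap (en u) y = 2 * (hsq u y - ‖lap u y‖ ^ 2) := (hb2 y (hsr hy)).1
      rw [h11]
      have h12 : ‖lap u y‖ ^ 2 ≤ (L * en u y) ^ 2 :=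
        pow_le_pow_left₀ (norm_nonneg _) (hHM.lapb y (hsr hy)) 2
      have h13 := hpt y (hs9 hy)
      have h14 := henn y
      have h15 := Pool.Agent.H89.SH.hsq_nonneg u y
      have h16 : L ^ 2 * en u y * en u y ≤ L ^ 2 * en u y / (r / 9) ^ 2 := by
        rw [le_div_iff₀ (by positivity)]
        have h17 : 0 ≤ L ^ 2 * en u y := by positivity
        nlinarith
      have h18 : 2 * L ^ 2 / (r / 9) ^ 2 * en u y = 2 * (L ^ 2 * en u y / (r / 9) ^ 2) := by ring
      rw [h18]
      nlinarith)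
  have h20 : s ^ (d + 2) * en u x ≤ C * (ε * r ^ d) := by
    have h21 : ENNReal.ofReal (s ^ (d + 2) * en u x) ≤ ENNReal.ofReal (C * (ε * r ^ d)) := by
      refine h10.trans ?_
      rw [ENNReal.ofReal_mul hC.le]
      exact mul_le_mul' le_rfl ((lintegral_mono_set hsr).trans hen)
    exact (ENNReal.ofReal_le_ofReal_iff (by positivity)).1 h21
  have h30 : ε ≤ δ ^ 2 * (k / 9) ^ (d + 2) / C := by rw [hε]; exact min_le_right _ _
  rw [le_div_iff₀ hC] at h30
  have h31 : s ^ (d + 2) = (k / 9) ^ (d + 2) * r ^ d * r ^ 2 := by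
    rw [hs, mul_assoc, ← pow_add, ← mul_pow]
    congr 1
    ring
  rw [h31] at h20
  have h32 : 0 < (k / 9) ^ (d + 2) * r ^ d := by positivity
  have h33 : (k / 9) ^ (d + 2) * r ^ d * (r ^ 2 * en u x) ≤
      (k / 9) ^ (d + 2) * r ^ d * δ ^ 2 := by
    calc (k / 9) ^ (d + 2) * r ^ d * (r ^ 2 * en u x)
        = (k / 9) ^ (d + 2) * r ^ d * r ^ 2 * en u x := by ring
      _ ≤ C * (ε * r ^ d) := h20
      _ = (ε * C) * r ^ d := by ring
      _ ≤ (δ ^ 2 * (k / 9) ^ (d + 2)) * r ^ d := by gcongr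
      _ = _ := by ring
  exact le_of_mul_le_mul_left h33 h32

end Pool.Agent.H87.AX
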