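import Pool.Agent.H87.AX.Targets4
import Pool.Agent.H87.SN.CSF

/-! Row GPT of the board axs (MP_2697e3_an): the good part. -/

namespace Pool.Agent.H87.AX

open MeasureTheory Metric Set Filter Topology Pool.Agent.H87.SN Pool.Agent.H87.SH
open scoped ContDiff RealInnerProductSpace ENNReal

theorem gpt_zp0_cont : Continuous (fun x : E (1 + 2) => zp x 0) := by
  have h : Continuous (fun x : E (1 + 2) => (zpL 1 x) 0) := by fun_prop
  exact h

theorem gpt_Jx_cont (hJGN : T_JGN) {ν : Measure (ℝ × ℝ)} (hν : Adm ν) :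
    ContinuousOn (Jx ν) {x : E (1 + 2) | 0 < rho x} := by
  have h1 := (hJGN ν hν).2.1.continuousOn
  have h2 : Continuous (fun x : E (1 + 2) => ((rho x, zp x 0) : ℝ × ℝ)) :=
    rho_cont.prodMk gpt_zp0_cont
  exact h1.comp h2.continuousOn fun x hx => hx

theorem gpt_pos_open : IsOpen {x : E (1 + 2) | 0 < rho x} :=
  isOpen_lt continuous_const rho_cont

theorem gpt_UV_open (hJGN : T_JGN) {ν : Measure (ℝ × ℝ)} (hν : Adm ν) : IsOpen (UV ν) := by
  have h1 : IsOpen ({x : E (1 + 2) | 0 < rho x} ∩ Jx ν ⁻¹' Iio c0) :=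
    (gpt_Jx_cont hJGN hν).isOpen_inter_preimage gpt_pos_open isOpen_Iio
  have h2 : UV ν = ball 0 (15 / 8) ∩ ({x : E (1 + 2) | 0 < rho x} ∩ Jx ν ⁻¹' Iio c0) := by
    ext x
    simp [UV]
  rw [h2]
  exact isOpen_ball.inter h1

/-- Cauchy-Schwarz on a measurable set. -/
theorem gpt_cs {n : ℕ} {S : Set (E n)} (hS : MeasurableSet S) (f g h : E n → ℝ)
    (hf : AEMeasurable f (volume.restrict S)) (hg : AEMeasurable g (volume.restrict S))
    (hf0 : ∀ x ∈ S, 0 ≤ f x) (hg0 : ∀ x ∈ S, 0 ≤ g x)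
    (hle : ∀ x ∈ S, h x ≤ Real.sqrt (f x) * Real.sqrt (g x)) (a b : ℝ≥0∞)
    (ha : ∫⁻ x in S, ENNReal.ofReal (f x) ≤ a) (hb : ∫⁻ x in S, ENNReal.ofReal (g x) ≤ b) :
    ∫⁻ x in S, ENNReal.ofReal (h x) ≤ a ^ (1 / 2 : ℝ) * b ^ (1 / 2 : ℝ) := by
  have m1 : AEMeasurable (fun x => ENNReal.ofReal (Real.sqrt (f x))) (volume.restrict S) :=
    hf.sqrt.ennreal_ofReal
  have m2 : AEMeasurable (fun x => ENNReal.ofReal (Real.sqrt (g x))) (volume.restrict S) :=
    hg.sqrt.ennreal_ofReal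
  have key := ENNReal.lintegral_mul_le_Lp_mul_Lq (volume.restrict S)
    (show (2 : ℝ).HolderConjugate 2 by constructor <;> norm_num) m1 m2
  have e1 : ∀ x ∈ S, (ENNReal.ofReal (Real.sqrt (f x))) ^ (2 : ℝ) = ENNReal.ofReal (f x) := by
    intro x hx
    rw [ENNReal.ofReal_rpow_of_nonneg (Real.sqrt_nonneg _) (by norm_num), Real.rpow_two,
      Real.sq_sqrt (hf0 x hx)]
  have e2 : ∀ x ∈ S, (ENNReal.ofReal (Real.sqrt (g x))) ^ (2 : ℝ) = ENNReal.ofReal (g x) := by
    intro x hx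
    rw [ENNReal.ofReal_rpow_of_nonneg (Real.sqrt_nonneg _) (by norm_num), Real.rpow_two,
      Real.sq_sqrt (hg0 x hx)]
  rw [setLIntegral_congr_fun hS e1, setLIntegral_congr_fun hS e2] at key
  calc ∫⁻ x in S, ENNReal.ofReal (h x) ≤ ∫⁻ x in S,
        ((fun x => ENNReal.ofReal (Real.sqrt (f x))) *
          fun x => ENNReal.ofReal (Real.sqrt (g x))) x := by
        refine setLIntegral_mono' hS fun x hx => ?_
        simp only [Pi.mul_apply]
        rw [← ENNReal.ofReal_mul (Real.sqrt_nonneg _)]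
        exact ENNReal.ofReal_le_ofReal (hle x hx)
    _ ≤ _ := key
    _ ≤ a ^ (1 / 2 : ℝ) * b ^ (1 / 2 : ℝ) := by gcongr

theorem pf_GPT (hROT : T_ROT) (hPRW : T_PRW) (hJGN : T_JGN) (hPR3 : T_PR3) (hIN3 : T_IN3)
    (hCHV : T_CHV) (hNKV : T_NKV) (hEA3 : T_EA3) : T_GPT := by
  intro m N A hN hA
  obtain ⟨δ, hδ, hnkv⟩ := hNKV m N A hN hA
  obtain ⟨C, hC, hin⟩ := hIN3
  obtain ⟨K, hK, hea⟩ := hEA3 1 2000 4 0
  refine ⟨δ, Real.sqrt (K * C), hδ, Real.sqrt_nonneg _, ?_⟩
  intro ν hν u G hst hsm hsmall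
  have hUo := gpt_UV_open hJGN hν
  have RF := hROT 1
  have hUrot : RotSet (UV ν) := by
    intro θ x hx
    refine ⟨?_, ?_, ?_⟩
    · rw [mem_ball_zero_iff, RF.norm]
      exact mem_ball_zero_iff.1 hx.1
    · rw [RF.rho]; exact hx.2.1
    · show Jn ν (rho (rot θ x)) (zp (rot θ x) 0) < c0
      rw [RF.rho, RF.zp]
      exact hx.2.2
  have hUs : UV ν ⊆ ball 0 2 := fun x hx => ball_subset_ball (by norm_num) hx.1
  have hTD : TenData 1 m (UV ν) u G (fun _ => 0) :=
    hnkv 1 (UV ν) u G hst hUo hUrot hUs (fun x hx => hx.2.1) hsm hsmall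
  obtain ⟨χ, hχC, hχ01, hχrot, hχg, hχ1, hχ0⟩ := hCHV ν hν
  have hJc := gpt_Jx_cont hJGN hν
  have hJ0 : ∀ x : E (1 + 2), 0 < rho x → 0 ≤ Jx ν x := fun x hx => (hJGN ν hν).1 _ _ hx
  have hE : 0 ≤ ∫ x in ball (0 : E (1 + 2)) 2, nsq (G x) :=
    integral_nonneg fun x => Finset.sum_nonneg fun i _ => by positivity
  set E0 : ℝ := ∫ x in ball (0 : E (1 + 2)) 2, nsq (G x) with hE0
  set B : ℝ := Real.sqrt (K * C) * Real.sqrt ((1 + (ν univ).toReal) * E0) with hB
  have hνtop : ν univ ≠ ⊤ := hν.fin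
  -- the sets
  obtain ⟨S, hS⟩ : ∃ S : ℝ → Set (E (1 + 2)), ∀ h, S h =
      {x | x ∈ ball (0 : E (1 + 2)) 1 ∧ 2 * h < rho x ∧ Jx ν x ≤ c0 / 2} := ⟨_, fun _ => rfl⟩
  have hSm : ∀ h : ℝ, 0 < h → MeasurableSet (S h) := by
    intro h hh
    have h1 : S h = ball (0 : E (1 + 2)) 1 ∩ ({x : E (1 + 2) | 2 * h < rho x} \
        ({x : E (1 + 2) | 0 < rho x} ∩ Jx ν ⁻¹' Ioi (c0 / 2))) := by
      rw [hS]
      ext x
      simp only [mem_setOf_eq, mem_inter_iff, mem_diff, mem_preimage, mem_Ioi, not_and, not_lt]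
      constructor
      · rintro ⟨a, b, c⟩
        exact ⟨a, b, fun _ => c⟩
      · rintro ⟨a, b, c⟩
        exact ⟨a, b, c (by linarith)⟩
    rw [h1]
    refine measurableSet_ball.inter ((isOpen_lt continuous_const rho_cont).measurableSet.diff ?_)
    exact (hJc.isOpen_inter_preimage gpt_pos_open isOpen_Ioi).measurableSet
  have hmain : ∀ h : ℝ, 0 < h → h ≤ 1 → hInt u (S h) ≤ ENNReal.ofReal B := by
    intro h hh hh1
    obtain ⟨H, hProf⟩ := hPR3 h ν hh hh1 hν
    obtain ⟨η, hW⟩ := hPRW 1 (fun _ => h) 2000 H _ continuous_const (fun _ => hh) hProf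
    have hwx : ∀ x : E (1 + 2), (fun x : E (1 + 2) => (fun p : ℝ × E 1 =>
        Wn h ν (p.1, p.2 0)) (rho x, zp x)) x =
        (rho x + Jx ν x + Real.sqrt (h / rho x))⁻¹ := fun x => rfl
    have hCut : CutV 1 (UV ν) (fun _ => h) 2000
        (fun x : E (1 + 2) => (fun p : ℝ × E 1 => Wn h ν (p.1, p.2 0)) (rho x, zp x)) χ := by
      refine ⟨hχC, hχ01, hχrot, hχg, ?_, ?_⟩
      · intro x _ hx0 hx1
        have h1 : c0 / 2 < Jx ν x := by
          by_contra hc
          push Not at hc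
          rw [hχ1 x hx0 hc] at hx1
          exact lt_irrefl _ hx1
        rw [hwx]
        have h2 : 0 ≤ Real.sqrt (h / rho x) := Real.sqrt_nonneg _
        have h3 : (1 / 2000 : ℝ) < rho x + Jx ν x + Real.sqrt (h / rho x) := by
          unfold c0 at h1
          linarith
        calc (rho x + Jx ν x + Real.sqrt (h / rho x))⁻¹ ≤ (1 / 2000 : ℝ)⁻¹ :=
              inv_anti₀ (by norm_num) h3.le
          _ = 2000 := by norm_num
      · intro x hx hxr hxU
        have hx0 : 0 < rho x := hh.trans hxr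
        have h1 : c0 ≤ Jx ν x := by
          by_contra hc
          push Not at hc
          refine hxU ⟨?_, hx0, hc⟩
          rw [mem_ball_zero_iff]
          rw [mem_closedBall_zero_iff] at hx
          linarith
        have h2 : ∀ᶠ y in 𝓝 x, y ∈ {y : E (1 + 2) | 0 < rho y} ∩ Jx ν ⁻¹' Ioi (3 / 4 * c0) := by
          refine (hJc.isOpen_inter_preimage gpt_pos_open isOpen_Ioi).mem_nhds ⟨hx0, ?_⟩
          show 3 / 4 * c0 < Jx ν x
          unfold c0 at h1 ⊢
          linarith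
        filter_upwards [h2] with y hy
        exact hχ0 y hy.1 (le_of_lt hy.2)
    have h4 := hea (fun _ => h) contDiff_const (fun _ => hh) (fun z => by simp) η _ hW (UV ν) χ
      hCut m u G (fun _ => 0) hTD
    have h5 := hin h ν hh hh1 hν
    have hSU : S h ⊆ UV ν := by
      intro x hx
      rw [hS] at hx
      refine ⟨ball_subset_ball (by norm_num) hx.1, by linarith [hx.2.1], ?_⟩
      have := hx.2.2
      unfold c0 at this ⊢
      linarith
    have hSp : ∀ x ∈ S h, 0 < rho x := fun x hx => (hSU hx).2.1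
    have hSχ : ∀ x ∈ S h, χ x = 1 := fun x hx => by
      have h6 := hSp x hx
      rw [hS] at hx
      exact hχ1 x h6 hx.2.2
    have hSsub : S h ⊆ {x | x ∈ ball (0 : E (1 + 2)) 1 ∧ 2 * h < rho x} := by
      intro x hx
      rw [hS] at hx
      exact ⟨hx.1, hx.2.1⟩
    have hwc : ContinuousOn (fun x : E (1 + 2) => rho x ^ 2 * Wn h ν (rho x, zp x 0)) (S h) := by
      refine (rho_cont.pow 2).continuousOn.mul ?_
      have h6 : ContinuousOn (fun x : E (1 + 2) => (fun p : ℝ × E 1 => Wn h ν (p.1, p.2 0))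
          (rho x, zp x)) {x | 0 < rho x} := by
        apply hProf.W_C1.continuousOn.comp
        · exact (rho_cont.prodMk (zpL 1).continuous).continuousOn
        · intro x hx
          exact hx
      exact h6.mono fun x hx => hSp x hx
    have hwpos : ∀ x ∈ S h, 0 < rho x ^ 2 * Wn h ν (rho x, zp x 0) := by
      intro x hx
      have h6 := hSp x hx
      have h7 := hProf.W_pos (rho x, zp x) h6
      have h8 : 0 < Wn h ν (rho x, zp x 0) := h7
      positivity
    have hhc : ContinuousOn (hsq u) (S h) := (hsq_cont hUo hsm).mono hSU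
    have h7 : ∫⁻ x in S h, ENNReal.ofReal (rho x ^ 2 * Wn h ν (rho x, zp x 0) * hsq u x) ≤
        ENNReal.ofReal (K * E0) := by
      have h8 : ∫ x in ball (0 : E (1 + 2)) 2, (nsq (G x) + (0 : ℝ) ^ 2) = E0 := by
        rw [hE0]
        congr 1
        funext x
        norm_num
      rw [← h8]
      refine le_trans ?_ h4
      refine le_trans ?_ (lintegral_mono_set hSsub)
      refine setLIntegral_mono' (hSm h hh) fun x hx => ENNReal.ofReal_le_ofReal ?_
      rw [hSχ x hx]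
      simp only [one_pow, one_mul]
      exact le_rfl
    have h9 : ∫⁻ x in S h, ENNReal.ofReal ((rho x ^ 2 * Wn h ν (rho x, zp x 0))⁻¹) ≤
        ENNReal.ofReal C * (1 + ν univ) := (lintegral_mono_set hSsub).trans h5
    have h10 := gpt_cs (hSm h hh)
      (fun x => rho x ^ 2 * Wn h ν (rho x, zp x 0) * hsq u x)
      (fun x => (rho x ^ 2 * Wn h ν (rho x, zp x 0))⁻¹) (fun x => Real.sqrt (hsq u x))
      ((hwc.mul hhc).aemeasurable (hSm h hh))
      ((hwc.inv₀ fun x hx => (hwpos x hx).ne').aemeasurable (hSm h hh))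
      (fun x hx => mul_nonneg (hwpos x hx).le (hsq_nonneg u x))
      (fun x hx => inv_nonneg.2 (hwpos x hx).le)
      (fun x hx => by
        rw [← Real.sqrt_mul (mul_nonneg (hwpos x hx).le (hsq_nonneg u x))]
        refine le_of_eq (congrArg Real.sqrt ?_)
        have h11 := (hwpos x hx).ne'
        rw [mul_comm (rho x ^ 2 * Wn h ν (rho x, zp x 0)) (hsq u x), mul_assoc,
          mul_inv_cancel₀ h11, mul_one]) _ _ h7 h9
    refine h10.trans (le_of_eq ?_)
    have h12 : ENNReal.ofReal C * (1 + ν univ) =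
        ENNReal.ofReal (C * (1 + (ν univ).toReal)) := by
      rw [ENNReal.ofReal_mul hC, ENNReal.ofReal_add zero_le_one ENNReal.toReal_nonneg,
        ENNReal.ofReal_one, ENNReal.ofReal_toReal hνtop]
    have h13 : 0 ≤ (ν univ).toReal := ENNReal.toReal_nonneg
    rw [h12, ENNReal.ofReal_rpow_of_nonneg (by positivity) (by norm_num),
      ENNReal.ofReal_rpow_of_nonneg (by positivity) (by norm_num),
      ← ENNReal.ofReal_mul (by positivity), ← Real.sqrt_eq_rpow, ← Real.sqrt_eq_rpow,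
      ← Real.sqrt_mul (by positivity), hB, ← Real.sqrt_mul (by positivity)]
    congr 2
    ring
  -- the limit
  have hmono : Monotone fun k : ℕ => S (1 / ((k : ℝ) + 1)) := by
    intro k l hkl x hx
    change x ∈ S (1 / ((k : ℝ) + 1)) at hx
    change x ∈ S (1 / ((l : ℝ) + 1))
    rw [hS] at hx ⊢
    refine ⟨hx.1, ?_, hx.2.2⟩
    have h1 : 1 / ((l : ℝ) + 1) ≤ 1 / ((k : ℝ) + 1) := by
      apply one_div_le_one_div_of_le (by positivity)
      have : (k : ℝ) ≤ l := by exact_mod_cast hkl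
      linarith
    linarith [hx.2.1]
  have hun : {x | x ∈ ball (0 : E (1 + 2)) 1 ∧ 0 < rho x ∧ Jx ν x ≤ c0 / 2} =
      ⋃ k : ℕ, S (1 / ((k : ℝ) + 1)) := by
    ext x
    rw [mem_iUnion]
    constructor
    · rintro ⟨a, b, c⟩
      obtain ⟨k, hk⟩ := exists_nat_one_div_lt (show (0 : ℝ) < rho x / 2 by linarith)
      refine ⟨k, ?_⟩
      rw [hS]
      exact ⟨a, by linarith, c⟩
    · rintro ⟨k, hk⟩
      rw [hS] at hk
      refine ⟨hk.1, ?_, hk.2.2⟩
      have : (0 : ℝ) < 1 / ((k : ℝ) + 1) := by positivity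
      linarith [hk.2.1]
  unfold hInt
  rw [hun, setLIntegral_iUnion_of_directed _ (directed_of_isDirected_le hmono)]
  refine iSup_le fun k => ?_
  refine hmain _ (by positivity) ?_
  rw [div_le_one (by positivity)]
  have : (0 : ℝ) ≤ (k : ℝ) := by positivity
  linarith

end Pool.Agent.H87.AX
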