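import Pool.Agent.H87.AX.BPT
import Pool.Agent.H87.SH.HLF
import Pool.Agent.H11.SN.EN1

/-! Row LH2 of the board axs (MP_2697e3_an): local bound of the Hessian. -/

namespace Pool.Agent.H87.AX

open MeasureTheory Metric Set Filter Topology Pool.Agent.H87.SN Pool.Agent.H87.SH
open scoped ContDiff RealInnerProductSpace ENNReal

theorem gsq_sq {n : ℕ} {ζ : E n → ℝ} {x : E n} (h : DifferentiableAt ℝ ζ x) :
    gsq (fun y => ζ y ^ 2) x = 4 * ζ x ^ 2 * gsq ζ x := by
  unfold gsq nsq
  rw [Finset.mul_sum]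
  refine Finset.sum_congr rfl fun i _ => ?_
  have h1 : fderiv ℝ (fun y => ζ y ^ 2) x (bv i) = 2 * ζ x * fderiv ℝ ζ x (bv i) := by
    have h2 : HasFDerivAt (fun y => ζ y ^ 2) ((2 • ζ x ^ (2 - 1)) • fderiv ℝ ζ x) x :=
      h.hasFDerivAt.pow 2
    rw [h2.fderiv]
    simp [mul_assoc]
  rw [h1, Real.norm_eq_abs, Real.norm_eq_abs, sq_abs, sq_abs]
  ring

theorem pf_LH2 (hCUT : T_CUT) (hGBO : T_GBO) : T_LH2 := by
  intro m L T hL hT
  obtain ⟨ζ, M, hζs, hζ01, -, hζ1, hζ0, hM, hζg⟩ := hCUT 2 (1 / 2) (3 / 4) (by norm_num)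
    (by norm_num)
  obtain ⟨V, hV⟩ : ∃ V : ℝ, V = (volume (ball (0 : E 2) 1)).toReal := ⟨_, rfl⟩
  have hV0 : 0 ≤ V := by rw [hV]; exact ENNReal.toReal_nonneg
  obtain ⟨B, hB⟩ : ∃ B : ℝ, B = 4 * L ^ 2 + 2 * M ^ 2 + 4 * M * L := ⟨_, rfl⟩
  have hB0 : 0 ≤ B := by rw [hB]; positivity
  refine ⟨V + 2 * (B * V), by positivity, ?_⟩
  intro v hv he
  have hζ1' : ContDiff ℝ 1 ζ := hζs.of_le (by exact_mod_cast le_top)
  have ha : ContDiff ℝ 1 (fun x => ζ x ^ 2) := hζ1'.pow 2
  have hsup : tsupport (fun x => ζ x ^ 2) ⊆ closedBall (0 : E 2) (3 / 4) := by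
    refine closure_minimal ?_ isClosed_closedBall
    intro x hx
    rw [mem_closedBall_zero_iff]
    by_contra hc
    push Not at hc
    apply hx
    simp only []
    rw [hζ0 x hc.le]
    norm_num
  have hcs : HasCompactSupport (fun x => ζ x ^ 2) :=
    (isCompact_closedBall (0 : E 2) (3 / 4)).of_isClosed_subset (isClosed_tsupport _) hsup
  have hsb : tsupport (fun x => ζ x ^ 2) ⊆ ball (0 : E 2) 1 :=
    hsup.trans (closedBall_subset_ball (by norm_num))
  have hgbo := hGBO 2 m (ball 0 1) v (fun x => ζ x ^ 2) isOpen_ball hv.smooth ha hcs hsb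
    (fun x => sq_nonneg _)
  have hhc : ContinuousOn (hsq v) (ball (0 : E 2) 1) := hsq_cont isOpen_ball hv.smooth
  have hfc : Continuous (fun x => ζ x ^ 2 * hsq v x) :=
    Pool.Agent.H11.SN.continuous_mul_of_tsupport isOpen_ball ha.continuous hsb hhc
  have hfi : Integrable (fun x => ζ x ^ 2 * hsq v x) :=
    hfc.integrable_of_hasCompactSupport hcs.mul_right
  have hI : Integrable ((ball (0 : E 2) 1).indicator fun _ => (1 : ℝ)) :=
    (integrable_indicator_iff measurableSet_ball).2 (integrableOn_const measure_ball_lt_top.ne)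
  have hIv : ∫ x, (ball (0 : E 2) 1).indicator (fun _ => (1 : ℝ)) x = V := by
    rw [integral_indicator measurableSet_ball, hV]
    simp [Measure.real]
  have hlap : ∀ x ∈ ball (0 : E 2) 1, ‖lap v x‖ ≤ 2 * L := by
    intro x hx
    have h1 := hv.lapb x hx
    have h2 := he x hx
    nlinarith
  have hz : ∀ x, x ∉ ball (0 : E 2) 1 → ζ x = 0 := by
    intro x hx
    apply hζ0
    rw [mem_ball_zero_iff] at hx
    linarith
  have h1 : ∫ x, ζ x ^ 2 * ‖lap v x‖ ^ 2 ≤
      ∫ x, 4 * L ^ 2 * (ball (0 : E 2) 1).indicator (fun _ => (1 : ℝ)) x := by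
    refine integral_mono_of_nonneg (Eventually.of_forall fun x => by positivity)
      (hI.const_mul _) (Eventually.of_forall fun x => ?_)
    show ζ x ^ 2 * ‖lap v x‖ ^ 2 ≤ 4 * L ^ 2 * (ball (0 : E 2) 1).indicator (fun _ => (1 : ℝ)) x
    by_cases hx : x ∈ ball (0 : E 2) 1
    · rw [indicator_of_mem hx, mul_one]
      have h2 := hlap x hx
      have h3 : ‖lap v x‖ ^ 2 ≤ (2 * L) ^ 2 := pow_le_pow_left₀ (norm_nonneg _) h2 2
      have h4 : ζ x ^ 2 ≤ 1 := pow_le_one₀ (hζ01 x).1 (hζ01 x).2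
      nlinarith [sq_nonneg ‖lap v x‖]
    · rw [indicator_of_notMem hx, hz x hx]
      norm_num
  have h2 : ∫ x, Real.sqrt (gsq (fun x => ζ x ^ 2) x) *
      (Real.sqrt (en v x) * (Real.sqrt (hsq v x) + ‖lap v x‖)) ≤
      ∫ x, (1 / 2 * (ζ x ^ 2 * hsq v x) + (2 * M ^ 2 + 4 * M * L) *
        (ball (0 : E 2) 1).indicator (fun _ => (1 : ℝ)) x) := by
    refine integral_mono_of_nonneg (Eventually.of_forall fun x => by positivity)
      ((hfi.const_mul _).add (hI.const_mul _)) (Eventually.of_forall fun x => ?_)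
    show Real.sqrt (gsq (fun x => ζ x ^ 2) x) *
      (Real.sqrt (en v x) * (Real.sqrt (hsq v x) + ‖lap v x‖)) ≤
      1 / 2 * (ζ x ^ 2 * hsq v x) + (2 * M ^ 2 + 4 * M * L) *
        (ball (0 : E 2) 1).indicator (fun _ => (1 : ℝ)) x
    have hg : gsq (fun x => ζ x ^ 2) x = 4 * ζ x ^ 2 * gsq ζ x :=
      gsq_sq (hζ1'.differentiable (by norm_num) x)
    by_cases hx : x ∈ ball (0 : E 2) 1
    · rw [indicator_of_mem hx, mul_one]
      have h3 : Real.sqrt (gsq (fun x => ζ x ^ 2) x) ≤ 2 * ζ x * M := by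
        rw [hg]
        apply Real.sqrt_le_iff.2
        refine ⟨by have := (hζ01 x).1; positivity, ?_⟩
        have := hζg x
        nlinarith [sq_nonneg (ζ x)]
      have h4 : Real.sqrt (en v x) ≤ 1 := by
        rw [Real.sqrt_le_one]
        exact he x hx
      have h5 := hlap x hx
      have hq0 : 0 ≤ hsq v x := hsq_nonneg v x
      obtain ⟨q, hq⟩ : ∃ q : ℝ, q = Real.sqrt (hsq v x) := ⟨_, rfl⟩
      have hq1 : 0 ≤ q := by rw [hq]; exact Real.sqrt_nonneg _
      have hq2 : hsq v x = q ^ 2 := by rw [hq, Real.sq_sqrt hq0]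
      rw [← hq, hq2]
      have hz0 := (hζ01 x).1
      have hz1 := (hζ01 x).2
      have hl0 := norm_nonneg (lap v x)
      calc Real.sqrt (gsq (fun x => ζ x ^ 2) x) * (Real.sqrt (en v x) * (q + ‖lap v x‖))
          ≤ (2 * ζ x * M) * (1 * (q + 2 * L)) := by
            refine mul_le_mul h3 (mul_le_mul h4 (by linarith) (by positivity) zero_le_one)
              (by positivity) (by positivity)
        _ ≤ 1 / 2 * (ζ x ^ 2 * q ^ 2) + (2 * M ^ 2 + 4 * M * L) := by
            have h6 : 0 ≤ M * L * (1 - ζ x) := by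
              apply mul_nonneg (by positivity)
              linarith
            nlinarith [sq_nonneg (ζ x * q - 2 * M)]
    · rw [indicator_of_notMem hx, hg, hz x hx]
      norm_num
  have h3 : ∫ x, ζ x ^ 2 * hsq v x ≤ 2 * (B * V) := by
    rw [integral_add (hfi.const_mul _) (hI.const_mul _), integral_const_mul,
      integral_const_mul, hIv] at h2
    rw [integral_const_mul, hIv] at h1
    have h4 := hgbo.trans (add_le_add h1 h2)
    rw [hB]
    nlinarith
  have hsub : ball (0 : E 2) (1 / 2) ⊆ ball 0 1 := ball_subset_ball (by norm_num)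
  calc hInt v (ball 0 (1 / 2)) ≤ ∫⁻ x in ball (0 : E 2) (1 / 2),
        (1 + ENNReal.ofReal (ζ x ^ 2 * hsq v x)) := by
        refine setLIntegral_mono' measurableSet_ball fun x hx => ?_
        have h5 : ζ x = 1 := hζ1 x (mem_ball_zero_iff.1 hx).le
        rw [h5, ← ENNReal.ofReal_one, ← ENNReal.ofReal_add zero_le_one
          (by have := hsq_nonneg v x; positivity)]
        refine ENNReal.ofReal_le_ofReal ?_
        have hq0 : 0 ≤ hsq v x := hsq_nonneg v x
        rw [Real.sqrt_le_iff]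
        constructor
        · positivity
        · nlinarith
    _ = volume (ball (0 : E 2) (1 / 2)) +
        ∫⁻ x in ball (0 : E 2) (1 / 2), ENNReal.ofReal (ζ x ^ 2 * hsq v x) := by
        rw [lintegral_add_left measurable_const]
        simp
    _ ≤ volume (ball (0 : E 2) 1) + ∫⁻ x, ENNReal.ofReal (ζ x ^ 2 * hsq v x) :=
        add_le_add (measure_mono hsub) (setLIntegral_le_lintegral _ _)
    _ = ENNReal.ofReal V + ENNReal.ofReal (∫ x, ζ x ^ 2 * hsq v x) := by
        rw [hV, ENNReal.ofReal_toReal measure_ball_lt_top.ne,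
          ofReal_integral_eq_lintegral_ofReal hfi (Eventually.of_forall fun x => by
            have := hsq_nonneg v x
            positivity)]
    _ ≤ ENNReal.ofReal V + ENNReal.ofReal (2 * (B * V)) :=
        add_le_add le_rfl (ENNReal.ofReal_le_ofReal h3)
    _ = ENNReal.ofReal (V + 2 * (B * V)) := (ENNReal.ofReal_add hV0 (by positivity)).symm

end Pool.Agent.H87.AX
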