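import Pool.Agent.H87.AX.Targets4

/-! Row MVI of the board hlf (MP_2697e3_an) from row MVX of the board axs. -/

namespace Pool.Agent.H87.AX

open MeasureTheory Metric Set Filter Topology Pool.Agent.H87.SN Pool.Agent.H87.SH
open scoped ContDiff RealInnerProductSpace ENNReal

theorem mvi_of_mvx (h : T_MVX) : T_MVI := by
  intro n
  obtain ⟨C, hC, h⟩ := h n
  refine ⟨C, hC, fun f x r Λ hr hf hf0 hΛ hΛr hl => ?_⟩
  have h1 := h f (fun _ _ => 0) x r Λ 0 0 hr hf (fun _ => contDiffOn_const) hf0 hΛ hΛr le_rfl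
    le_rfl (fun y _ => by simp) (fun y hy => by
      have h2 := hl y hy
      simpa using h2)
  simpa using h1

end Pool.Agent.H87.AX
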