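import Pool.Agent.H87.AX.Targets4

/-! Row NKV of the board axs (MP_2697e3_an): from stationary harmonic maps to the data. -/

namespace Pool.Agent.H87.AX

open MeasureTheory Metric Set Filter Topology Pool.Agent.H87.SN Pool.Agent.H87.SH
open scoped ContDiff RealInnerProductSpace ENNReal

theorem pf_NKV (hST1 : T_ST1) (hCL1 : T_CL1) (hCL2 : T_CL2) (hCL3 : T_CL3) (hGEO : T_GEO) :
    T_NKV := by
  intro m N A hN hA
  obtain ⟨CA, hCA0, hCA⟩ := hGEO m N A hN hA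
  refine ⟨1 / (4 * (CA + 1)), by positivity, ?_⟩
  intro d U u G hSH hop hrot hsub hpos hsm hsmall
  have huN : ∀ x ∈ U, u x ∈ N :=
    hCL1 (d + 2) m N U u hN hop hsub hsm.continuousOn hSH.mem
  have hae := hCL2 (d + 2) m U u G hSH.w12 hop hsub hsm
  have hlap := hCL3 (d + 2) m N A U u G hN hA.continuousOn hSH hop hsub hsm
  obtain ⟨horth, hlb, hab⟩ := hCA d U u hop hsm huN hlap
  have hkey : ∀ x ∈ U, CA ^ 2 * (nsq (fderiv ℝ u x) * rho x ^ 2) ≤ 1 / 8 := by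
    intro x hx
    have hn0 : 0 ≤ nsq (fderiv ℝ u x) := by unfold nsq; positivity
    have hrho0 : 0 ≤ rho x := by unfold rho; positivity
    have h1 : rho x * Real.sqrt (nsq (fderiv ℝ u x)) ≤ 1 / (4 * (CA + 1)) := hsmall x hx
    have h2 : (rho x * Real.sqrt (nsq (fderiv ℝ u x))) ^ 2 ≤ (1 / (4 * (CA + 1))) ^ 2 :=
      pow_le_pow_left₀ (by positivity) h1 2
    rw [mul_pow, Real.sq_sqrt hn0] at h2
    have h3 : CA ^ 2 * (1 / (4 * (CA + 1))) ^ 2 ≤ 1 / 8 := by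
      rw [div_pow, one_pow, mul_one_div, div_le_iff₀ (by positivity)]
      nlinarith
    calc CA ^ 2 * (nsq (fderiv ℝ u x) * rho x ^ 2)
        = CA ^ 2 * (rho x ^ 2 * nsq (fderiv ℝ u x)) := by ring
      _ ≤ CA ^ 2 * (1 / (4 * (CA + 1))) ^ 2 := by gcongr
      _ ≤ 1 / 8 := h3
  have hst : Stat1 G := hST1 (d + 2) m G hSH.w12.memLp_deriv (fun X hX => hSH.stationary X hX)
  refine ⟨hSH.w12.memLp_deriv, ?_, fun _ => le_rfl, ?_, hop, hrot, hsub, hpos, hsm, hae, ?_, ?_⟩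
  · exact MemLp.zero
  · intro X h1 h2 h3
    rw [hst X h1 h2 h3]
    simp
  · intro x hx
    have hn0 : 0 ≤ nsq (fderiv ℝ u x) := by unfold nsq; positivity
    calc ‖lap u x‖ ^ 2 * rho x ^ 2
        ≤ (CA * nsq (fderiv ℝ u x)) ^ 2 * rho x ^ 2 := by
          gcongr
          exact hlb x hx
      _ = (CA ^ 2 * (nsq (fderiv ℝ u x) * rho x ^ 2)) * nsq (fderiv ℝ u x) := by ring
      _ ≤ 1 / 8 * nsq (fderiv ℝ u x) := by
          gcongr
          exact hkey x hx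
      _ = 1 / 8 * nsq (fderiv ℝ u x) + rho x ^ 2 * (0 : ℝ) ^ 2 := by ring
  · intro x hx
    calc |⟪uthth u x, lap u x⟫| * rho x ^ 2
        ≤ (CA ^ 2 * ‖uth u x‖ ^ 2 * nsq (fderiv ℝ u x)) * rho x ^ 2 := by
          gcongr
          exact hab x hx
      _ = (CA ^ 2 * (nsq (fderiv ℝ u x) * rho x ^ 2)) * ‖uth u x‖ ^ 2 := by ring
      _ ≤ 1 / 8 * ‖uth u x‖ ^ 2 := by
          gcongr
          exact hkey x hx
      _ = 1 / 8 * ‖uth u x‖ ^ 2 + rho x ^ 2 * ((0 : ℝ) * ‖uthth u x‖) := by ring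

end Pool.Agent.H87.AX
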