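import Pool.Agent.H87.AX.BPT

/-! Row RGE of the board axs (MP_2697e3_an): energy of rings. -/

namespace Pool.Agent.H87.AX

open MeasureTheory Metric Set Filter Topology Pool.Agent.H87.SN Pool.Agent.H87.SH
open scoped ContDiff RealInnerProductSpace ENNReal

theorem rge_nsq_int {n m : ℕ} {G : E n → E n →L[ℝ] E m} {μ : Measure (E n)}
    (h : MemLp G 2 μ) : Integrable (fun x => nsq (G x)) μ := by
  unfold nsq
  refine integrable_finsetSum _ fun i _ => ?_
  have h1 : MemLp (fun x => G x (bv i)) 2 μ :=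
    (ContinuousLinearMap.apply ℝ (E m) (bv i)).comp_memLp' h
  exact h1.integrable_norm_pow (by norm_num)

theorem rg_sub (p : ℝ × ℝ) (hp : p ∈ hbl) : rg p (1 / 4) ⊆ ball 0 2 := by
  intro x hx
  obtain ⟨h1, h2⟩ := hx
  obtain ⟨hp0, hp1⟩ := hp
  have h1' := abs_lt.1 h1
  have h2' := abs_lt.1 h2
  have h0 : 0 ≤ rho x := Real.sqrt_nonneg _
  rw [mem_ball_zero_iff]
  have h3 := norm_sq_rz x
  have h4 : |p.2| ^ 2 = p.2 ^ 2 := sq_abs _
  have h5 : |zp x 0| ≤ |p.2| + p.1 / 4 := by
    have h6 := abs_sub_abs_le_abs_sub (zp x 0) p.2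
    linarith
  have h6 : (zp x 0) ^ 2 ≤ (|p.2| + p.1 / 4) ^ 2 := by
    rw [← sq_abs (zp x 0)]
    exact pow_le_pow_left₀ (abs_nonneg _) h5 2
  have h7 : rho x ^ 2 ≤ (p.1 + p.1 / 4) ^ 2 := pow_le_pow_left₀ h0 (by linarith) 2
  have h8 : p.1 + |p.2| < 2 := by
    have h9 := abs_nonneg p.2
    nlinarith [sq_nonneg (p.1 - |p.2|)]
  have h10 : p.1 < 5 / 4 := by nlinarith [sq_nonneg p.2]
  have h11 : ‖x‖ ^ 2 < 4 := by
    have h9 := abs_nonneg p.2
    nlinarith
  nlinarith [norm_nonneg x]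

theorem pf_RGE (hENB : T_ENB) : T_RGE := by
  obtain ⟨C, hC, henb⟩ := hENB 1
  refine ⟨2 * C + 8, by positivity, ?_⟩
  intro m G hG hS p hp
  refine ⟨(rg_open p _).measurableSet, rg_sub p hp, ?_⟩
  have hp0 : 0 < p.1 := hp.1
  have hint := rge_nsq_int hG
  have hnn : ∀ x, 0 ≤ nsq (G x) := fun x => Finset.sum_nonneg fun i _ => by positivity
  have hE : 0 ≤ ∫ x in ball (0 : E (1 + 2)) 2, nsq (G x) := integral_nonneg fun x => hnn x
  have hp2 : |p.2| < 5 / 4 := by
    have h1 := hp.2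
    rw [← sq_abs p.2] at h1
    nlinarith [abs_nonneg p.2]
  rcases le_or_gt (2 * p.1) (1 / 4) with h | h
  · set b : E (1 + 2) := p.2 • bv (2 : Fin (1 + 2)) with hb
    have hbn : ‖b‖ ≤ 3 / 2 := by
      rw [hb, norm_smul]
      have h1 : ‖(bv (2 : Fin (1 + 2)) : E (1 + 2))‖ = 1 := by
        unfold bv
        rw [PiLp.norm_single]
        norm_num
      rw [h1, mul_one, Real.norm_eq_abs]
      linarith
    have hsub : rg p (1 / 4) ⊆ ball b (2 * p.1) := by
      intro x hx
      obtain ⟨h1, h2⟩ := hx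
      have h1' := abs_lt.1 h1
      rw [mem_ball, dist_eq_norm]
      have h3 := norm_sq_rz (x - b)
      have h4 : rho (x - b) = rho x := by
        unfold rho
        simp [hb, bv]
      have h5 : zp (x - b) 0 = zp x 0 - p.2 := by
        have e1 : zp (x - b) 0 = (x - b) 2 := rfl
        have e2 : zp x 0 = x 2 := rfl
        rw [e1, e2]
        simp [hb, bv]
      rw [h4, h5] at h3
      have h60 : 0 ≤ rho x := Real.sqrt_nonneg _
      have h6 : rho x ^ 2 ≤ (5 / 4 * p.1) ^ 2 :=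
        pow_le_pow_left₀ h60 (by linarith) 2
      have h7 : (zp x 0 - p.2) ^ 2 ≤ (p.1 / 4) ^ 2 := by
        rw [← sq_abs]
        exact pow_le_pow_left₀ (abs_nonneg _) (by linarith) 2
      have h8 : ‖x - b‖ ^ 2 < (2 * p.1) ^ 2 := by nlinarith
      exact lt_of_pow_lt_pow_left₀ 2 (by positivity) h8
    have h2 := henb m G hG hS b (2 * p.1) hbn (by positivity) h
    have hsub2 : ball b (2 * p.1) ⊆ ball 0 2 := by
      intro x hx
      rw [mem_ball, dist_eq_norm] at hx
      rw [mem_ball_zero_iff]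
      have h3 : ‖x‖ ≤ ‖x - b‖ + ‖b‖ := by
        have := norm_add_le (x - b) b
        simpa using this
      linarith
    calc ∫ x in rg p (1 / 4), nsq (G x) ≤ ∫ x in ball b (2 * p.1), nsq (G x) := by
          refine setIntegral_mono_set (hint.mono_measure (Measure.restrict_mono hsub2 le_rfl)) ?_ ?_
          · exact Eventually.of_forall fun x => hnn x
          · exact hsub.eventuallyLE
      _ ≤ C * (2 * p.1) ^ 1 * ∫ x in ball (0 : E (1 + 2)) 2, nsq (G x) := h2
      _ ≤ (2 * C + 8) * p.1 * ∫ x in ball (0 : E (1 + 2)) 2, nsq (G x) := by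
          refine mul_le_mul_of_nonneg_right ?_ hE
          nlinarith
  · calc ∫ x in rg p (1 / 4), nsq (G x) ≤ ∫ x in ball (0 : E (1 + 2)) 2, nsq (G x) := by
          refine setIntegral_mono_set hint ?_ ?_
          · exact Eventually.of_forall fun x => hnn x
          · exact (rg_sub p hp).eventuallyLE
      _ ≤ (2 * C + 8) * p.1 * ∫ x in ball (0 : E (1 + 2)) 2, nsq (G x) := by
          have h3 : 1 ≤ (2 * C + 8) * p.1 := by nlinarith
          nlinarith

end Pool.Agent.H87.AX
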