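import Pool.Agent.H87.AX.BPT
import Pool.Agent.H87.SH.HLF

/-! Row RNG of the board axs (MP_2697e3_an): the Hessian on rings. -/

namespace Pool.Agent.H87.AX

open MeasureTheory Metric Set Filter Topology Pool.Agent.H87.SN Pool.Agent.H87.SH
open scoped ContDiff RealInnerProductSpace ENNReal

theorem rng_rot_off (hROT : T_ROT) (θ : ℝ) (x : E (1 + 2)) :
    rot θ x ∈ offAxis ↔ x ∈ offAxis := by
  have RF := hROT 1
  unfold offAxis
  rw [mem_setOf_eq, mem_setOf_eq, mem_ball_zero_iff, mem_ball_zero_iff, RF.norm, RF.rho]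

theorem pf_RNG (hROT : T_ROT) (hAXF : T_AXF) (hSLT : T_SLT) (hRGI : T_RGI) (hTM2 : T_TM2) :
    T_RNG := by
  intro m N A P Λ hN hA hP hΛ
  obtain ⟨L, T, C, hL, hT, hC, hslt⟩ := hSLT m N A P hN hA hP
  obtain ⟨K, hK, htm⟩ := hTM2 m L T Λ hL hT hΛ
  obtain ⟨V, hV⟩ : ∃ V : ℝ, V = (volume (ball (0 : E 2) (1 / 2))).toReal := ⟨_, rfl⟩
  have hV0 : 0 ≤ V := by rw [hV]; exact ENNReal.toReal_nonneg
  refine ⟨16 * (16 * K + C * (V + Λ)), by positivity, ?_⟩
  intro u hu p hp hen
  have hp0 : 0 < p.1 := hp.1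
  obtain ⟨hpos, hTM, hy⟩ := hslt u hu p hp
  obtain ⟨-, -, -, hrot⟩ := hAXF m P u hP hu.smooth hu.axial
  have hO := offAxis_open
  have henc : ContinuousOn (en u) offAxis := en_cont hO hu.smooth
  have hhc : ContinuousOn (fun x => Real.sqrt (hsq u x)) offAxis := (hsq_cont hO hu.smooth).sqrt
  -- rotation invariance
  have hri : ∀ g : E (1 + 2) → ℝ, (∀ θ : ℝ, ∀ x ∈ offAxis, g (rot θ x) = g x) →
      ∀ (θ : ℝ) (x : E (1 + 2)), ENNReal.ofReal (offAxis.indicator g (rot θ x)) =
        ENNReal.ofReal (offAxis.indicator g x) := by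
    intro g hg θ x
    by_cases hx : x ∈ offAxis
    · rw [indicator_of_mem hx, indicator_of_mem ((rng_rot_off hROT θ x).2 hx), hg θ x hx]
    · rw [indicator_of_notMem hx, indicator_of_notMem fun h => hx ((rng_rot_off hROT θ x).1 h)]
  obtain ⟨h1, -⟩ := hRGI (fun x => ENNReal.ofReal (offAxis.indicator (en u) x)) p
    (meas_ind hO.measurableSet henc).ennreal_ofReal hp0
    (hri (en u) fun θ x hx => (hrot θ x hx).1)
  obtain ⟨-, h2⟩ := hRGI (fun x => ENNReal.ofReal
      (offAxis.indicator (fun x => Real.sqrt (hsq u x)) x)) p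
    (meas_ind hO.measurableSet hhc).ennreal_ofReal hp0
    (hri _ fun θ x hx => by
      show Real.sqrt (hsq u (rot θ x)) = Real.sqrt (hsq u x)
      rw [(hrot θ x hx).2])
  have hc0 : ENNReal.ofReal p.1 ^ 3 ≠ 0 := by
    have : 0 < ENNReal.ofReal p.1 := ENNReal.ofReal_pos.2 hp0
    exact pow_ne_zero 3 this.ne'
  have hct : ENNReal.ofReal p.1 ^ 3 ≠ ⊤ := ENNReal.pow_ne_top ENNReal.ofReal_ne_top
  have h3p : ENNReal.ofReal p.1 ^ 3 = ENNReal.ofReal (p.1 ^ 3) := by
    rw [ENNReal.ofReal_pow hp0.le]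
  -- energy of the slice
  have hesl : engy (slc u p) (ball 0 1) ≤ ENNReal.ofReal Λ := by
    rw [lint_ind hO.measurableSet] at h1
    have h10 : ENNReal.ofReal p.1 ^ 3 * (∫⁻ y in ball (0 : E 2) 1,
        ENNReal.ofReal (offAxis.indicator (en u) (posn p y))) ≤
        16 * ENNReal.ofReal (Λ * p.1) := h1.trans (mul_le_mul' le_rfl hen)
    have h11 : engy (slc u p) (ball 0 1) ≤ ENNReal.ofReal (p.1 ^ 2 / 16) *
        ∫⁻ y in ball (0 : E 2) 1, ENNReal.ofReal (offAxis.indicator (en u) (posn p y)) := by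
      rw [← lintegral_const_mul' _ _ ENNReal.ofReal_ne_top]
      refine setLIntegral_mono' measurableSet_ball fun y hy1 => ?_
      rw [← ENNReal.ofReal_mul (by positivity), indicator_of_mem (hpos y hy1)]
      exact ENNReal.ofReal_le_ofReal (hy y hy1).1
    have h12 : ENNReal.ofReal p.1 ^ 3 * engy (slc u p) (ball 0 1) ≤
        ENNReal.ofReal p.1 ^ 3 * ENNReal.ofReal Λ := by
      calc ENNReal.ofReal p.1 ^ 3 * engy (slc u p) (ball 0 1)
          ≤ ENNReal.ofReal p.1 ^ 3 * (ENNReal.ofReal (p.1 ^ 2 / 16) *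
            ∫⁻ y in ball (0 : E 2) 1, ENNReal.ofReal (offAxis.indicator (en u) (posn p y))) :=
            mul_le_mul' le_rfl h11
        _ = ENNReal.ofReal (p.1 ^ 2 / 16) * (ENNReal.ofReal p.1 ^ 3 *
            ∫⁻ y in ball (0 : E 2) 1, ENNReal.ofReal (offAxis.indicator (en u) (posn p y))) := by
            ring
        _ ≤ ENNReal.ofReal (p.1 ^ 2 / 16) * (16 * ENNReal.ofReal (Λ * p.1)) :=
            mul_le_mul' le_rfl h10
        _ = ENNReal.ofReal p.1 ^ 3 * ENNReal.ofReal Λ := by
            have h16 : (16 : ℝ≥0∞) = ENNReal.ofReal 16 := by simp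
            rw [h16, ← ENNReal.ofReal_mul (by norm_num), ← ENNReal.ofReal_mul (by positivity),
              h3p, ← ENNReal.ofReal_mul (by positivity)]
            congr 1
            ring
    exact (ENNReal.mul_le_mul_iff_right hc0 hct).1 h12
  have hhsl := htm (slc u p) hTM hesl
  -- the Hessian
  have hball : ball (0 : E 2) (1 / 2) ⊆ ball 0 1 := ball_subset_ball (by norm_num)
  have hslc : ContinuousOn (en (slc u p)) (ball (0 : E 2) (1 / 2)) :=
    (en_cont isOpen_ball hTM.smooth).mono hball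
  have hslh : ContinuousOn (fun y => Real.sqrt (hsq (slc u p) y)) (ball (0 : E 2) (1 / 2)) :=
    ((hsq_cont isOpen_ball hTM.smooth).mono hball).sqrt
  have henn : ∀ y, 0 ≤ en (slc u p) y := fun y => en_nonneg _ y
  have h20 : ENNReal.ofReal (p.1 ^ 2) * (∫⁻ y in ball (0 : E 2) (1 / 2), ENNReal.ofReal
      (offAxis.indicator (fun x => Real.sqrt (hsq u x)) (posn p y))) ≤
      ENNReal.ofReal (16 * K + C * (V + Λ)) := by
    rw [← lintegral_const_mul' _ _ ENNReal.ofReal_ne_top]
    calc ∫⁻ y in ball (0 : E 2) (1 / 2), ENNReal.ofReal (p.1 ^ 2) * ENNReal.ofReal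
          (offAxis.indicator (fun x => Real.sqrt (hsq u x)) (posn p y))
        ≤ ∫⁻ y in ball (0 : E 2) (1 / 2), (ENNReal.ofReal 16 *
            ENNReal.ofReal (Real.sqrt (hsq (slc u p) y)) + ENNReal.ofReal C *
            (1 + ENNReal.ofReal (en (slc u p) y))) := by
          refine setLIntegral_mono' measurableSet_ball fun y hy1 => ?_
          rw [← ENNReal.ofReal_mul (by positivity), indicator_of_mem (hpos y (hball hy1))]
          refine (ENNReal.ofReal_le_ofReal (hy y (hball hy1)).2).trans (le_of_eq ?_)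
          rw [ENNReal.ofReal_add (by positivity)
            (mul_nonneg hC (add_nonneg zero_le_one (henn y))),
            ENNReal.ofReal_mul (by norm_num), ENNReal.ofReal_mul hC,
            ENNReal.ofReal_add zero_le_one (henn y), ENNReal.ofReal_one]
      _ = ENNReal.ofReal 16 * hInt (slc u p) (ball 0 (1 / 2)) + ENNReal.ofReal C *
            (volume (ball (0 : E 2) (1 / 2)) + engy (slc u p) (ball 0 (1 / 2))) := by
          rw [lintegral_add_left', lintegral_const_mul' _ _ ENNReal.ofReal_ne_top,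
            lintegral_const_mul' _ _ ENNReal.ofReal_ne_top, lintegral_add_left measurable_const]
          · unfold hInt engy
            simp
          · exact ((hslh.aemeasurable measurableSet_ball).ennreal_ofReal).const_mul _
      _ ≤ ENNReal.ofReal 16 * ENNReal.ofReal K + ENNReal.ofReal C *
            (ENNReal.ofReal V + ENNReal.ofReal Λ) := by
          refine add_le_add (mul_le_mul' le_rfl hhsl) (mul_le_mul' le_rfl (add_le_add ?_ ?_))
          · rw [hV, ENNReal.ofReal_toReal measure_ball_lt_top.ne]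
          · exact (lintegral_mono_set hball).trans hesl
      _ = ENNReal.ofReal (16 * K + C * (V + Λ)) := by
          rw [ENNReal.ofReal_add (by positivity) (by positivity), ENNReal.ofReal_mul (by norm_num),
            ENNReal.ofReal_mul hC, ENNReal.ofReal_add hV0 hΛ]
  rw [lint_ind hO.measurableSet] at h2
  refine h2.trans ?_
  have h3q : ENNReal.ofReal p.1 ^ 3 = ENNReal.ofReal p.1 * ENNReal.ofReal (p.1 ^ 2) := by
    rw [ENNReal.ofReal_pow hp0.le]
    ring
  calc 16 * (ENNReal.ofReal p.1 ^ 3 * ∫⁻ y in ball (0 : E 2) (1 / 2), ENNReal.ofReal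
          (offAxis.indicator (fun x => Real.sqrt (hsq u x)) (posn p y)))
      = 16 * (ENNReal.ofReal p.1 * (ENNReal.ofReal (p.1 ^ 2) *
          ∫⁻ y in ball (0 : E 2) (1 / 2), ENNReal.ofReal
          (offAxis.indicator (fun x => Real.sqrt (hsq u x)) (posn p y)))) := by
        rw [h3q, mul_assoc]
    _ ≤ 16 * (ENNReal.ofReal p.1 * ENNReal.ofReal (16 * K + C * (V + Λ))) := by gcongr
    _ = ENNReal.ofReal (16 * (16 * K + C * (V + Λ)) * p.1) := by
        have h16 : (16 : ℝ≥0∞) = ENNReal.ofReal 16 := by simp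
        rw [h16, ← ENNReal.ofReal_mul hp0.le, ← ENNReal.ofReal_mul (by norm_num)]
        congr 1
        ring

end Pool.Agent.H87.AX
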