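import Pool.Agent.H87.AX.Targets4
import Pool.Agent.H87.SH.HLF

/-! Row TM2 of the board axs (MP_2697e3_an): maps of the plane with bounded tension. -/

namespace Pool.Agent.H87.AX

open MeasureTheory Metric Set Filter Topology Pool.Agent.H87.SN Pool.Agent.H87.SH
open scoped ContDiff RealInnerProductSpace ENNReal

theorem TM.monoT {m : ℕ} {L T T' : ℝ} {U : Set (E 2)} {v : E 2 → E m} (h : TM m L T U v)
    (hT : T ≤ T') : TM m L T' U v := by
  refine ⟨h.smooth, h.lapb, fun x hx k => (h.tan x hx k).trans ?_,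
    fun x hx k l => (h.ang x hx k l).trans ?_⟩
  · gcongr
  · gcongr

theorem TM.monoU {m : ℕ} {L T : ℝ} {U V : Set (E 2)} {v : E 2 → E m} (h : TM m L T U v)
    (hV : V ⊆ U) : TM m L T V v :=
  ⟨h.smooth.mono hV, fun x hx => h.lapb x (hV hx), fun x hx => h.tan x (hV hx),
    fun x hx => h.ang x (hV hx)⟩

theorem hInt_biUnion_le {n m : ℕ} (v : E n → E m) (t : Finset (E n)) (S : E n → Set (E n)) :
    hInt v (⋃ c ∈ t, S c) ≤ ∑ c ∈ t, hInt v (S c) := by
  classical
  induction t using Finset.induction_on with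
  | empty => simp [hInt]
  | insert a t ha ih =>
    rw [Finset.sum_insert ha, Finset.set_biUnion_insert]
    exact (lintegral_union_le _ _ _).trans (add_le_add le_rfl ih)

theorem pf_TM2 (hTMZ : T_TMZ) (hCOV : T_COV) (hIDS : T_IDS) : T_TM2 := by
  intro m L T Λ hL hT hΛ
  obtain ⟨T₀, ε, hT₀, hε, hbase, hstep⟩ := hIDS m L hL
  have hind : ∀ k : ℕ, ∃ K : ℝ, 0 ≤ K ∧ ∀ v : E 2 → E m, TM m L T₀ (ball 0 1) v →
      engy v (ball 0 1) ≤ ENNReal.ofReal ((k + 1 : ℕ) * ε) →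
      hInt v (ball 0 (1 / 2)) ≤ ENNReal.ofReal K := by
    intro k
    induction k with
    | zero => simpa using hbase
    | succ k ih =>
      have h1 : ε ≤ ((k + 1 : ℕ) : ℝ) * ε := by
        have h2 : (1 : ℝ) ≤ ((k + 1 : ℕ) : ℝ) := by exact_mod_cast Nat.le_add_left 1 k
        nlinarith
      obtain ⟨K, hK, h⟩ := hstep _ h1 ih
      refine ⟨K, hK, fun v hv he => h v hv (he.trans (le_of_eq ?_))⟩
      congr 1
      push_cast
      ring
  obtain ⟨k, hk⟩ := exists_nat_ge (Λ / ε)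
  have hkΛ : Λ ≤ ((k + 1 : ℕ) : ℝ) * ε := by
    rw [div_le_iff₀ hε] at hk
    push_cast
    nlinarith
  obtain ⟨K, hK, hKv⟩ := hind k
  -- the radius
  obtain ⟨r, hr⟩ : ∃ r : ℝ, r = min (1 / 2) (T₀ / (T + 1)) := ⟨_, rfl⟩
  have hr0 : 0 < r := by rw [hr]; exact lt_min (by norm_num) (by positivity)
  have hr1 : r ≤ 1 / 2 := by rw [hr]; exact min_le_left _ _
  have hrT : r * T ≤ T₀ := by
    have h1 : r ≤ T₀ / (T + 1) := by rw [hr]; exact min_le_right _ _
    rw [le_div_iff₀ (by positivity)] at h1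
    nlinarith
  obtain ⟨j, hj⟩ := exists_nat_ge (1 / r)
  obtain ⟨M, hM⟩ := hCOV 2 j
  refine ⟨M * K, by positivity, ?_⟩
  intro v hv he
  obtain ⟨t, htM, htA, hcov⟩ := hM 0 (r / 2) (ball 0 (1 / 2)) (by positivity) (by
    intro x hx
    rw [mem_ball_zero_iff] at hx
    rw [mem_closedBall_zero_iff]
    rw [div_le_iff₀ hr0] at hj
    nlinarith)
  have hone : ∀ c ∈ t, hInt v (ball c (r / 2)) ≤ ENNReal.ofReal K := by
    intro c hc
    have hc1 : c ∈ ball (0 : E 2) (1 / 2) := htA hc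
    have hsub : ball c r ⊆ ball 0 1 := by
      intro x hx
      rw [mem_ball, dist_eq_norm] at hx
      rw [mem_ball_zero_iff] at hc1 ⊢
      have h1 : ‖x‖ ≤ ‖x - c‖ + ‖c‖ := by
        have := norm_add_le (x - c) c
        simpa using this
      linarith
    have hz := hTMZ m L T v c r 1 hL hT hr0 (by linarith) one_pos (by
      rw [mul_one]
      exact hv.monoU hsub)
    obtain ⟨hz1, -, hz2⟩ := hz
    obtain ⟨hz3, -, -⟩ := hz2 1 one_pos le_rfl
    obtain ⟨-, hz4, -⟩ := hz2 (1 / 2) (by norm_num) (by norm_num)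
    have h5 := hKv _ (hz1.monoT hrT) (by
      rw [hz3, mul_one]
      exact ((lintegral_mono_set hsub).trans he).trans (ENNReal.ofReal_le_ofReal hkΛ))
    rw [hz4] at h5
    have h6 : r * (1 / 2) = r / 2 := by ring
    rwa [h6] at h5
  calc hInt v (ball 0 (1 / 2)) ≤ hInt v (⋃ c ∈ t, ball c (r / 2)) := lintegral_mono_set hcov
    _ ≤ ∑ c ∈ t, hInt v (ball c (r / 2)) := hInt_biUnion_le v t _
    _ ≤ ∑ c ∈ t, ENNReal.ofReal K := Finset.sum_le_sum hone
    _ = (t.card : ℝ≥0∞) * ENNReal.ofReal K := by rw [Finset.sum_const, nsmul_eq_mul]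
    _ ≤ (M : ℝ≥0∞) * ENNReal.ofReal K := by
        gcongr
    _ = ENNReal.ofReal (M * K) := by
        rw [ENNReal.ofReal_mul (by positivity), ENNReal.ofReal_natCast]

end Pool.Agent.H87.AX
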