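import Pool.Agent.H87.SN.Done
import Pool.Agent.H87.SH.Done0
import Pool.Agent.H14.AX.ANT
import Pool.Agent.H14.AX.BTH
import Pool.Agent.H5.AX.AVG
import Pool.Agent.H5.AX.COV
import Pool.Agent.H5.AX.IN3
import Pool.Agent.H5.AX.JGN
import Pool.Agent.H5.AX.PCK
import Pool.Agent.H5.AX.PR3
import Pool.Agent.H5.AX.RGI
import Pool.Agent.H49.AX.AXD
import Pool.Agent.H49.AX.CHV
import Pool.Agent.H82.AX.AXF
import Pool.Agent.H72.AX.BX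
import Pool.Agent.H72.AX.GBO
import Pool.Agent.H35.AX.EA1
import Pool.Agent.H35.AX.IDS
import Pool.Agent.H35.AX.SLT
import Pool.Agent.H4.AX.EA2
import Pool.Agent.H4.AX.NUE
import Pool.Agent.H4.AX.POT
import Pool.Agent.H78.AX.EA3
import Pool.Agent.H78.AX.NC2
import Pool.Agent.H79.AX.ENB
import Pool.Agent.H8.AX.GE2
import Pool.Agent.H8.AX.JGI
import Pool.Agent.H8.AX.KVF
import Pool.Agent.H8.AX.TMZ
import Pool.Agent.H18.AX.SCL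
import Pool.Agent.H18.AX.WKH
import Pool.Agent.H40.AX.HET
import Pool.Agent.H87.AX.AXS
import Pool.Agent.H87.AX.BPT
import Pool.Agent.H87.AX.EP2
import Pool.Agent.H87.AX.EPS
import Pool.Agent.H87.AX.GPT
import Pool.Agent.H87.AX.LH2
import Pool.Agent.H87.AX.MVIx
import Pool.Agent.H87.AX.NKV
import Pool.Agent.H87.AX.RGE
import Pool.Agent.H87.AX.RNG
import Pool.Agent.H87.AX.TM2

/-! Collection of the finished rows of the board axs (MP_2697e3_an). -/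

namespace Pool.Agent.H87.AX

open Pool.Agent.H87.SN Pool.Agent.H87.SH

theorem f_KVF : T_KVF := Pool.Agent.H8.AX.pf_KVF
theorem f_KVI : T_KVI := Pool.Agent.H8.AX.pf_KVI
theorem f_BX : T_BX := Pool.Agent.H72.AX.pf_BX
theorem f_GBO : T_GBO := Pool.Agent.H72.AX.pf_GBO f_IBP
theorem f_BTH : T_BTH := Pool.Agent.H14.AX.pf_BTH f_ROT f_IBP f_GRN
theorem f_ANT : T_ANT := Pool.Agent.H14.AX.pf_ANT f_ROT f_LA2 f_BTH f_WIC
theorem f_POT : T_POT := Pool.Agent.H4.AX.pf_POT f_ROT f_LA1 f_LA3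
theorem f_HET : T_HET := Pool.Agent.H40.AX.pf_HET f_LA3 f_GBO
theorem f_EA1 : T_EA1 := Pool.Agent.H35.AX.pf_EA1 f_ROT f_LA1 f_CUT f_INN f_ANT
theorem f_EA2 : T_EA2 := Pool.Agent.H4.AX.pf_EA2 f_ROT f_LA1 f_CUT f_POT f_EA1
theorem f_EA3 : T_EA3 := Pool.Agent.H78.AX.pf_EA3 f_CUT f_INN f_HET f_EA2
theorem f_TMZ : T_TMZ := Pool.Agent.H8.AX.pf_TMZ
theorem f_GE2 : T_GE2 := Pool.Agent.H8.AX.pf_GE2
theorem f_COV : T_COV := Pool.Agent.H5.AX.pf_COV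
theorem f_SCL : T_SCL := Pool.Agent.H18.AX.pf_SCL
theorem f_LH2 : T_LH2 := pf_LH2 f_CUT f_GBO
theorem f_JGN : T_JGN := Pool.Agent.H5.AX.pf_JGN f_KVF
theorem f_JGI : T_JGI := Pool.Agent.H8.AX.pf_JGI f_KVF f_KVI
theorem f_NBH : T_NBH := Pool.Agent.H8.AX.pf_NBH f_KVF
theorem f_PR3 : T_PR3 := Pool.Agent.H5.AX.pf_PR3 f_HC1 f_JGN
theorem f_IN3 : T_IN3 := Pool.Agent.H5.AX.pf_IN3 f_POL f_JGN f_JGI
theorem f_CHV : T_CHV := Pool.Agent.H49.AX.pf_CHV f_ROT f_CV2 f_JGN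
theorem f_NKV : T_NKV := pf_NKV f_ST1 f_CL1 f_CL2 f_CL3 f_GEO
theorem f_GPT : T_GPT := pf_GPT f_ROT f_PRW f_JGN f_PR3 f_IN3 f_CHV f_NKV f_EA3
theorem f_ENB : T_ENB := Pool.Agent.H79.AX.pf_ENB f_PHI
theorem f_PCK : T_PCK := Pool.Agent.H5.AX.pf_PCK
theorem f_AVG : T_AVG := Pool.Agent.H5.AX.pf_AVG
theorem f_AXF : T_AXF := Pool.Agent.H82.AX.pf_AXF f_ROT
theorem f_AXD : T_AXD := Pool.Agent.H49.AX.pf_AXD f_ST1 f_CL1 f_CL2 f_CL3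
theorem f_SLT : T_SLT := Pool.Agent.H35.AX.pf_SLT f_AXF f_GE2
theorem f_RGI : T_RGI := Pool.Agent.H5.AX.pf_RGI f_ROT f_POL
theorem f_RGE : T_RGE := pf_RGE f_ENB
theorem f_WKH : T_WKH := Pool.Agent.H18.AX.pf_WKH f_ROT f_IBP

/-- The theorem up to the two last rows. -/
theorem g_AXS (hMVX : T_MVX) (hSTT : T_STT) : T_AXS := by
  have hMVI : T_MVI := mvi_of_mvx hMVX
  have hEPS : T_EPS := pf_EPS f_PHI (g_SCH hMVI) hMVI f_BO1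
  have hEP2 : T_EP2 := pf_EP2 f_BX hMVX
  have hNC2 : T_NC2 := Pool.Agent.H78.AX.pf_NC2 f_LA3 hSTT f_PR1 f_PRW f_IN1 f_EA3
  have hIDS : T_IDS := Pool.Agent.H35.AX.pf_IDS f_TMZ hEP2 f_LH2 hNC2 f_COV f_SCL
  have hTM2 : T_TM2 := pf_TM2 f_TMZ f_COV hIDS
  have hNUE : T_NUE := Pool.Agent.H4.AX.pf_NUE f_ROT f_GEO f_KVF hEPS f_PCK f_NBH f_AXF
  have hRNG : T_RNG := pf_RNG f_ROT f_AXF f_SLT f_RGI hTM2
  have hBPT : T_BPT := pf_BPT f_JGN f_JGI f_AVG hRNG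
  exact pf_AXS f_AXD hNUE f_GPT f_RGE hBPT f_WKH

end Pool.Agent.H87.AX
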