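import Pool.Agent.H87.AX.Targets3

/-! Axially symmetric harmonic maps in dimension three (MP_2697e3_an): target statements, part 4: axially
symmetric maps, the bad part and the theorem. -/

namespace Pool.Agent.H87.AX

open MeasureTheory Metric Set Filter Topology Pool.Agent.H87.SN Pool.Agent.H87.SH
open scoped ContDiff RealInnerProductSpace ENNReal

noncomputable section

/-- Differentiable one-parameter groups of rotations of `R^m`. -/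
structure RotGroup (m : ℕ) (P : ℝ → E m →L[ℝ] E m) : Prop where
  add : ∀ (s t : ℝ) (v : E m), P (s + t) v = P s (P t v)
  zero : ∀ v : E m, P 0 v = v
  iso : ∀ (t : ℝ) (v : E m), ‖P t v‖ = ‖v‖
  diff : Differentiable ℝ P

/-- The ball of radius two without the axis. -/
def offAxis : Set (E (1 + 2)) := {x | x ∈ ball 0 2 ∧ 0 < rho x}

/-- Axial symmetry. -/
def Axial {m : ℕ} (P : ℝ → E m →L[ℝ] E m) (u : E (1 + 2) → E m) : Prop :=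
  ∀ θ : ℝ, ∀ x ∈ offAxis, u (rot θ x) = P θ (u x)

/-- The data of an axially symmetric map. -/
structure AxData (m : ℕ) (N : Set (E m)) (A : E m → E m →L[ℝ] E m →L[ℝ] E m)
    (P : ℝ → E m →L[ℝ] E m) (u : E (1 + 2) → E m) : Prop where
  smooth : ContDiffOn ℝ ∞ u offAxis
  val : ∀ x ∈ offAxis, u x ∈ N
  pde : ∀ x ∈ offAxis, lap u x =
    - ∑ i : Fin (1 + 2), A (u x) (fderiv ℝ u x (bv i)) (fderiv ℝ u x (bv i))
  axial : Axial P u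

/-- The point of the half plane in the space. -/
def pt (s τ : ℝ) : E (1 + 2) := s • bv (0 : Fin (1 + 2)) + τ • bv (2 : Fin (1 + 2))

/-- Scaled coordinates near the point `p` of the half plane. -/
def posn (p : ℝ × ℝ) (y : E 2) : E (1 + 2) :=
  pt (p.1 * (1 + y 0 / 4)) (p.2 + p.1 * y 1 / 4)

/-- The slice near the point `p`. -/
def slc {m : ℕ} (u : E (1 + 2) → E m) (p : ℝ × ℝ) (y : E 2) : E m := u (posn p y)

/-- The half ball. -/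
def hbl : Set (ℝ × ℝ) := {p | 0 < p.1 ∧ p.1 ^ 2 + p.2 ^ 2 < (5 / 4) ^ 2}

/-- Facts on axially symmetric maps. -/
def T_AXF : Prop := ∀ (m : ℕ) (P : ℝ → E m →L[ℝ] E m) (u : E (1 + 2) → E m), RotGroup m P →
    ContDiffOn ℝ ∞ u offAxis → Axial P u →
    (∀ v w : E m, ⟪deriv P 0 v, w⟫ = - ⟪v, deriv P 0 w⟫) ∧
    (∀ x ∈ offAxis, fderiv ℝ u x (Jm 1 x) = deriv P 0 (u x)) ∧
    (∀ x ∈ offAxis, ∀ v : E (1 + 2),
      fderiv ℝ (fderiv ℝ u) x v (Jm 1 x) + fderiv ℝ u x (Jm 1 v) =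
        deriv P 0 (fderiv ℝ u x v)) ∧
    ∀ θ : ℝ, ∀ x ∈ offAxis, en u (rot θ x) = en u x ∧ hsq u (rot θ x) = hsq u x

/-- Values, equation and energy of the map. -/
def T_AXD : Prop := ∀ (m : ℕ) (N : Set (E m)) (A : E m → E m →L[ℝ] E m →L[ℝ] E m)
    (P : ℝ → E m →L[ℝ] E m) (u : E (1 + 2) → E m) (G : E (1 + 2) → E (1 + 2) →L[ℝ] E m),
    IsCompact N → IsSFF N A → StationaryHarmonic N A u G → ContDiffOn ℝ ∞ u offAxis → Axial P u →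
    AxData m N A P u ∧ Stat1 G ∧ (∀ᵐ x ∂(volume.restrict offAxis), G x = fderiv ℝ u x) ∧
    ∀ S : Set (E (1 + 2)), MeasurableSet S → S ⊆ ball 0 2 →
      engy u (S ∩ offAxis) ≤ ENNReal.ofReal (∫ x in S, nsq (G x))

/-- The measure of the bad set. -/
def T_NUE : Prop := ∀ (m : ℕ) (N : Set (E m)) (A : E m → E m →L[ℝ] E m →L[ℝ] E m)
    (P : ℝ → E m →L[ℝ] E m) (δ : ℝ), IsCompact N → IsSFF N A → RotGroup m P → 0 < δ →
    ∃ C : ℝ, 0 ≤ C ∧ ∀ (u : E (1 + 2) → E m) (E₀ : ℝ), AxData m N A P u → 0 ≤ E₀ →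
    engy u offAxis ≤ ENNReal.ofReal E₀ → ∃ ν : Measure (ℝ × ℝ), Adm ν ∧
      ν univ ≤ ENNReal.ofReal (C * (1 + E₀)) ∧ ∀ x ∈ UV ν, rho x * Real.sqrt (en u x) ≤ δ

/-- The slices are maps with bounded tension. -/
def T_SLT : Prop := ∀ (m : ℕ) (N : Set (E m)) (A : E m → E m →L[ℝ] E m →L[ℝ] E m)
    (P : ℝ → E m →L[ℝ] E m), IsCompact N → IsSFF N A → RotGroup m P →
    ∃ L T C : ℝ, 0 ≤ L ∧ 0 ≤ T ∧ 0 ≤ C ∧ ∀ u : E (1 + 2) → E m, AxData m N A P u →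
    ∀ p ∈ hbl, (∀ y ∈ ball (0 : E 2) 1, posn p y ∈ offAxis) ∧
      TM m L T (ball 0 1) (slc u p) ∧ ∀ y ∈ ball (0 : E 2) 1,
      en (slc u p) y ≤ p.1 ^ 2 / 16 * en u (posn p y) ∧
      p.1 ^ 2 * Real.sqrt (hsq u (posn p y)) ≤
        16 * Real.sqrt (hsq (slc u p) y) + C * (1 + en (slc u p) y)

/-- Integrals of rotation invariant functions over rings and slices. -/
def T_RGI : Prop := ∀ (f : E (1 + 2) → ℝ≥0∞) (p : ℝ × ℝ), Measurable f → 0 < p.1 →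
    (∀ (θ : ℝ) (x : E (1 + 2)), f (rot θ x) = f x) →
    ENNReal.ofReal p.1 ^ 3 * (∫⁻ y in ball (0 : E 2) 1, f (posn p y)) ≤
      16 * ∫⁻ x in rg p (1 / 4), f x ∧
    (∫⁻ x in rg p (1 / 16), f x) ≤
      16 * (ENNReal.ofReal p.1 ^ 3 * ∫⁻ y in ball (0 : E 2) (1 / 2), f (posn p y))

/-- The Hessian on the rings. -/
def T_RNG : Prop := ∀ (m : ℕ) (N : Set (E m)) (A : E m → E m →L[ℝ] E m →L[ℝ] E m)
    (P : ℝ → E m →L[ℝ] E m) (Λ : ℝ), IsCompact N → IsSFF N A → RotGroup m P → 0 ≤ Λ →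
    ∃ F : ℝ, 0 ≤ F ∧ ∀ u : E (1 + 2) → E m, AxData m N A P u → ∀ p ∈ hbl,
    engy u (rg p (1 / 4) ∩ offAxis) ≤ ENNReal.ofReal (Λ * p.1) →
    hInt u (rg p (1 / 16) ∩ offAxis) ≤ ENNReal.ofReal (F * p.1)

/-- The bad part. -/
def T_BPT : Prop := ∀ (m : ℕ) (N : Set (E m)) (A : E m → E m →L[ℝ] E m →L[ℝ] E m)
    (P : ℝ → E m →L[ℝ] E m) (Λ : ℝ), IsCompact N → IsSFF N A → RotGroup m P → 0 ≤ Λ →
    ∃ F : ℝ, 0 ≤ F ∧ ∀ u : E (1 + 2) → E m, AxData m N A P u →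
    (∀ p ∈ hbl, engy u (rg p (1 / 4) ∩ offAxis) ≤ ENNReal.ofReal (Λ * p.1)) →
    ∀ ν : Measure (ℝ × ℝ), Adm ν →
    hInt u {x | x ∈ ball (0 : E (1 + 2)) 1 ∧ 0 < rho x ∧ c0 / 2 < Jx ν x} ≤
      ENNReal.ofReal F * ν univ

/-- Energy of rings. -/
def T_RGE : Prop := ∃ C : ℝ, 0 ≤ C ∧ ∀ (m : ℕ) (G : E (1 + 2) → E (1 + 2) →L[ℝ] E m),
    MemLp G 2 (volume.restrict (ball (0 : E (1 + 2)) 2)) → Stat1 G → ∀ p ∈ hbl,
    MeasurableSet (rg p (1 / 4)) ∧ rg p (1 / 4) ⊆ ball 0 2 ∧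
    ∫ x in rg p (1 / 4), nsq (G x) ≤ C * p.1 * ∫ x in ball (0 : E (1 + 2)) 2, nsq (G x)

/-- The classical Hessian off the axis is the distributional one. -/
def T_WKH : Prop := ∀ (m : ℕ) (u : E (1 + 2) → E m) (G : E (1 + 2) → E (1 + 2) →L[ℝ] E m),
    MemLp G 2 (volume.restrict (ball (0 : E (1 + 2)) 2)) → ContDiffOn ℝ ∞ u offAxis →
    (∀ᵐ x ∂(volume.restrict offAxis), G x = fderiv ℝ u x) →
    hInt u {x | x ∈ ball (0 : E (1 + 2)) 1 ∧ 0 < rho x} ≠ ⊤ →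
    ∀ v w : E (1 + 2),
    IntegrableOn (fun x => fderiv ℝ (fderiv ℝ u) x v w)
      {x | x ∈ ball (0 : E (1 + 2)) 1 ∧ 0 < rho x} ∧
    ∀ φ : E (1 + 2) → ℝ, ContDiff ℝ ∞ φ → HasCompactSupport φ → tsupport φ ⊆ ball 0 1 →
      ∫ x, (fderiv ℝ φ x v) • G x w =
        - ∫ x in {x | x ∈ ball (0 : E (1 + 2)) 1 ∧ 0 < rho x},
          φ x • fderiv ℝ (fderiv ℝ u) x v w

/-- The theorem: Q1 for axially symmetric maps in dimension three. -/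
def T_AXS : Prop := ∀ (m : ℕ) (N : Set (E m)) (A : E m → E m →L[ℝ] E m →L[ℝ] E m)
    (P : ℝ → E m →L[ℝ] E m) (C : ℝ), IsCompact N → IsSFF N A → RotGroup m P →
    ∃ δ : ℝ, 0 ≤ δ ∧ ∀ (u : E (1 + 2) → E m) (G : E (1 + 2) → E (1 + 2) →L[ℝ] E m),
    StationaryHarmonic N A u G → ContDiffOn ℝ ∞ u offAxis → Axial P u →
    ∫ x in ball (0 : E (1 + 2)) 2, nsq (G x) ≤ C →
    ∃ H : Fin (1 + 2) → Fin (1 + 2) → E (1 + 2) → E m,
      (∀ i j, IntegrableOn (H i j) (ball 0 1)) ∧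
      (∀ (i j : Fin (1 + 2)) (φ : E (1 + 2) → ℝ), ContDiff ℝ ∞ φ → HasCompactSupport φ →
        tsupport φ ⊆ ball 0 1 →
        ∫ x, (fderiv ℝ φ x (bv i)) • G x (bv j) = - ∫ x, φ x • H i j x) ∧
      ∫⁻ x in ball (0 : E (1 + 2)) 1,
        ENNReal.ofReal (Real.sqrt (∑ i, ∑ j, ‖H i j x‖ ^ 2)) ≤ ENNReal.ofReal δ

end

end Pool.Agent.H87.AX
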