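import Pool.Agent.H87.SN.Stmt
import Pool.Agent.H87.AX.Targets4

/-! Axially symmetric harmonic maps in dimension three (MP_2697e3_an): short forms of the definitions,
used in the statement of the result. -/

namespace Pool.Agent.H87.AX

open MeasureTheory Metric Set Filter Topology Pool.Agent.H87.SN Pool.Agent.H87.SH
open scoped ContDiff RealInnerProductSpace ENNReal

noncomputable section

/-- `P` is a continuous one-parameter group of rotations of `R^m`. -/
def IsRotations {m : ℕ} (P : ℝ → Lin m m) : Prop :=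
  (∀ (s t : ℝ) (v : E m), ap (P (s + t)) v = ap (P s) (ap (P t) v)) ∧
  (∀ v : E m, ap (P 0) v = v) ∧ (∀ (t : ℝ) (v : E m), ‖ap (P t) v‖ = ‖v‖) ∧
  Continuous P

/-- The rotation of `R^3` about the third axis by the angle `θ`. -/
def turn (θ : ℝ) (x : E 3) : E 3 :=
  WithLp.toLp 2 ![Real.cos θ * x 0 - Real.sin θ * x 1, Real.sin θ * x 0 + Real.cos θ * x 1, x 2]

/-- The ball of radius two of `R^3` without the third axis. -/
def offAx : Set (E 3) := {x | ‖x‖ < 2 ∧ ¬ (x 0 = 0 ∧ x 1 = 0)}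

/-- The map `u` is smooth off the third axis, and equivariant: `u (R_θ x) = P_θ (u x)`. -/
def IsAxial {m : ℕ} (P : ℝ → Lin m m) (u : E 3 → E m) : Prop :=
  ContDiffOn ℝ ∞ u offAx ∧ ∀ θ : ℝ, ∀ x ∈ offAx, u (turn θ x) = ap (P θ) (u x)

/-- The second derivatives of `u` on the unit ball, in the sense of distributions, are the integrable
functions `H i j`. -/
def IsHessian {m : ℕ} (u : E 3 → E m) (H : Fin 3 → Fin 3 → E 3 → E m) : Prop :=
  (∀ i j, IntegrableOn (H i j) (ball 0 1)) ∧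
  ∀ (i j : Fin 3) (φ : E 3 → ℝ), ContDiff ℝ ∞ φ → HasCompactSupport φ → tsupport φ ⊆ ball 0 1 →
    ∫ x, pdr (fun y => pdr φ y (bv i)) x (bv j) • u x = ∫ x, φ x • H i j x

/-- The integral of the Euclidean norm of `H` over the unit ball. -/
def hessL1 {m : ℕ} (H : Fin 3 → Fin 3 → E 3 → E m) : ℝ≥0∞ :=
  ∫⁻ x in ball (0 : E 3) 1, ENNReal.ofReal (Real.sqrt (∑ i, ∑ j, ‖H i j x‖ ^ 2))

/-- A continuous one-parameter group of linear maps is differentiable. -/
theorem diff_of_cont {m : ℕ} {P : ℝ → E m →L[ℝ] E m}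
    (h1 : ∀ (s t : ℝ) (v : E m), P (s + t) v = P s (P t v)) (h2 : ∀ v : E m, P 0 v = v)
    (h4 : Continuous P) : Differentiable ℝ P := by
  have hP0 : P 0 = 1 := by
    ext1 v
    exact h2 v
  have hadd : ∀ s t, P (s + t) = P s * P t := by
    intro s t
    ext1 v
    exact h1 s t v
  -- small times
  obtain ⟨a, ha, hsm⟩ : ∃ a : ℝ, 0 < a ∧ ∀ s ∈ Icc 0 a, ‖P s - 1‖ ≤ 1 / 2 := by
    have h5 : ∀ᶠ s in 𝓝 (0 : ℝ), ‖P s - 1‖ < 1 / 2 := by
      have h6 : Tendsto (fun s => ‖P s - 1‖) (𝓝 0) (𝓝 ‖P 0 - 1‖) :=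
        ((h4.sub continuous_const).norm).tendsto 0
      rw [hP0, sub_self, norm_zero] at h6
      exact h6.eventually (gt_mem_nhds (by norm_num))
    obtain ⟨e, he, h7⟩ := Metric.eventually_nhds_iff.1 h5
    refine ⟨e / 2, by positivity, fun s hs => (h7 ?_).le⟩
    rw [dist_zero_right, Real.norm_eq_abs, abs_of_nonneg hs.1]
    linarith [hs.2]
  have hint : ∀ b c : ℝ, IntervalIntegrable P volume b c := fun b c => h4.intervalIntegrable b c
  obtain ⟨Q, hQ⟩ : ∃ Q : E m →L[ℝ] E m, Q = a⁻¹ • ∫ s in (0 : ℝ)..a, P s := ⟨_, rfl⟩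
  have hQ1 : ‖1 - Q‖ < 1 := by
    have h5 : Q - 1 = a⁻¹ • ∫ s in (0 : ℝ)..a, (P s - 1) := by
      rw [intervalIntegral.integral_sub (hint 0 a) intervalIntegrable_const,
        intervalIntegral.integral_const, sub_zero, smul_sub, smul_smul,
        inv_mul_cancel₀ ha.ne', one_smul, hQ]
    have h6 : ‖∫ s in (0 : ℝ)..a, (P s - 1)‖ ≤ 1 / 2 * |a - 0| := by
      refine intervalIntegral.norm_integral_le_of_norm_le_const fun s hs => ?_
      rw [uIoc_of_le ha.le] at hs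
      exact hsm s ⟨hs.1.le, hs.2⟩
    rw [← norm_neg, neg_sub, h5, norm_smul, Real.norm_eq_abs, abs_of_pos (inv_pos.2 ha)]
    rw [sub_zero, abs_of_pos ha] at h6
    calc a⁻¹ * ‖∫ s in (0 : ℝ)..a, (P s - 1)‖ ≤ a⁻¹ * (1 / 2 * a) := by gcongr
      _ = 1 / 2 := by field_simp
      _ < 1 := by norm_num
  obtain ⟨R, hR⟩ : ∃ R : E m →L[ℝ] E m, Q * R = 1 := by
    have h5 : IsUnit (1 - (1 - Q)) := (Units.oneSub (1 - Q) hQ1).isUnit
    rw [sub_sub_cancel] at h5
    obtain ⟨q, hq⟩ := h5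
    exact ⟨↑(q⁻¹), by rw [← hq]; simp⟩
  have hkey : ∀ t, P t = (a⁻¹ • ∫ s in t..(t + a), P s) * R := by
    intro t
    have h5 : P t * Q = a⁻¹ • ∫ s in t..(t + a), P s := by
      have h6 : P t * Q = ContinuousLinearMap.compL ℝ (E m) (E m) (E m) (P t) Q := rfl
      rw [h6, hQ, map_smul]
      congr 1
      rw [← ContinuousLinearMap.intervalIntegral_comp_comm _ (hint 0 a)]
      have h7 : ∫ s in (0 : ℝ)..a, ContinuousLinearMap.compL ℝ (E m) (E m) (E m) (P t) (P s) =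
          ∫ s in (0 : ℝ)..a, P (t + s) := by
        refine intervalIntegral.integral_congr fun s _ => ?_
        exact (hadd t s).symm
      rw [h7, intervalIntegral.integral_comp_add_left (fun x => P x) t, add_zero]
    rw [← h5, mul_assoc, hR, mul_one]
  have hd : Differentiable ℝ fun t : ℝ => ∫ s in t..(t + a), P s := by
    have h6 : (fun t : ℝ => ∫ s in t..(t + a), P s) =
        fun t : ℝ => (∫ s in (0 : ℝ)..(t + a), P s) - ∫ s in (0 : ℝ)..t, P s := by
      funext t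
      rw [intervalIntegral.integral_interval_sub_left (hint _ _) (hint _ _)]
    rw [h6]
    have h7 : Differentiable ℝ fun t : ℝ => ∫ s in (0 : ℝ)..t, P s := fun t =>
      (h4.integral_hasStrictDerivAt 0 t).hasDerivAt.differentiableAt
    exact (h7.comp (differentiable_id.add_const a)).sub h7
  have h8 : P = fun t => (a⁻¹ • ∫ s in t..(t + a), P s) * R := funext hkey
  rw [h8]
  exact (hd.const_smul a⁻¹).mul_const R

theorem IsRotations.old {m : ℕ} {P : ℝ → Lin m m} (h : IsRotations P) : RotGroup m P :=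
  ⟨h.1, h.2.1, h.2.2.1, diff_of_cont h.1 h.2.1 h.2.2.2⟩

theorem offAx_eq : offAx = offAxis := by
  ext x
  have h1 : (¬ (x 0 = 0 ∧ x 1 = 0)) ↔ 0 < rho (d := 1) x := by
    rw [rho, Real.sqrt_pos]
    constructor
    · intro h
      rcases not_and_or.1 h with h | h
      · have : 0 < x 0 ^ 2 := by positivity
        nlinarith [sq_nonneg (x 1)]
      · have : 0 < x 1 ^ 2 := by positivity
        nlinarith [sq_nonneg (x 0)]
    · rintro h ⟨h2, h3⟩
      change 0 < x 0 ^ 2 + x 1 ^ 2 at h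
      rw [h2, h3] at h
      norm_num at h
  constructor
  · rintro ⟨h2, h3⟩
    exact ⟨mem_ball_zero_iff.2 h2, h1.1 h3⟩
  · rintro ⟨h2, h3⟩
    exact ⟨mem_ball_zero_iff.1 h2, h1.2 h3⟩

theorem turn_eq (θ : ℝ) (x : E 3) : turn θ x = rot (d := 1) θ x := by
  ext i
  fin_cases i <;> simp [turn, rot, Pm, Jm] <;> ring

theorem IsAxial.old {m : ℕ} {P : ℝ → Lin m m} {u : E 3 → E m} (h : IsAxial P u) :
    ContDiffOn ℝ ∞ u offAxis ∧ Axial P u := by
  obtain ⟨h1, h2⟩ := h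
  rw [offAx_eq] at h1 h2
  refine ⟨h1, fun θ x hx => ?_⟩
  rw [← turn_eq]
  exact h2 θ x hx

/-- The result in short form. -/
theorem short (hf : T_AXS) (m : ℕ) (N : Set (E m)) (A : E m → Bil m) (P : ℝ → Lin m m) (C : ℝ)
    (hN : IsCompact N) (hA : IsSecond N A) (hP : IsRotations P) :
    ∃ δ : ℝ, ∀ (u : E 3 → E m) (G : E 3 → Lin 3 m), StatHarm N A u G → IsAxial P u →
      energy G ≤ C → ∃ H, IsHessian u H ∧ hessL1 H ≤ ENNReal.ofReal δ := by
  obtain ⟨δ, -, h⟩ := hf m N A P C hN hA.old hP.old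
  refine ⟨δ, fun u G h1 h2 h3 => ?_⟩
  have hw := h1.old.w12.weak
  obtain ⟨h4, h5⟩ := h2.old
  obtain ⟨H, hH1, hH2, hH3⟩ := h u G h1.old h4 h5 h3
  refine ⟨H, ⟨hH1, fun i j φ hφ hc hs => ?_⟩, hH3⟩
  have hsm : ContDiff ℝ ∞ (fun y => fderiv ℝ φ y (bv i)) :=
    (hφ.fderiv_right (m := ∞) (by norm_num)).clm_apply contDiff_const
  have hts : tsupport (fun y => fderiv ℝ φ y (bv i)) ⊆ tsupport φ := by
    refine closure_minimal ?_ (isClosed_tsupport φ)
    intro y hy
    refine (support_fderiv_subset ℝ (f := φ)) ?_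
    intro h0
    apply hy
    change fderiv ℝ φ y (bv i) = 0
    rw [h0]
    rfl
  have htest : IsTest (fun y => fderiv ℝ φ y (bv i)) :=
    ⟨hsm, hc.mono' (subset_closure.trans hts), hts.trans (hs.trans (ball_subset_ball (by norm_num)))⟩
  have h6 := hw _ htest (bv j)
  have h7 := hH2 i j φ hφ hc hs
  change ∫ x, (fderiv ℝ (fun y => fderiv ℝ φ y (bv i)) x (bv j)) • u x = _
  rw [h6, h7, neg_neg]

end

end Pool.Agent.H87.AX
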