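import Pool.Agent.H87.SH.Targets

/-! Axially symmetric harmonic maps in dimension three (MP_2697e3_an): working definitions and target
statements of the rows of the board axs, part 1: general facts and the engine with an error term. -/

namespace Pool.Agent.H87.AX

open MeasureTheory Metric Set Filter Topology Pool.Agent.H87.SN Pool.Agent.H87.SH
open scoped ContDiff RealInnerProductSpace ENNReal

noncomputable section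

/-! ### General identities for smooth maps -/

/-- Integral identity of Bochner, as an inequality. -/
def T_GBO : Prop := ∀ (n m : ℕ) (U : Set (E n)) (u : E n → E m) (a : E n → ℝ),
    IsOpen U → ContDiffOn ℝ ∞ u U → ContDiff ℝ 1 a → HasCompactSupport a → tsupport a ⊆ U →
    (∀ x, 0 ≤ a x) →
    ∫ x, a x * hsq u x ≤ (∫ x, a x * ‖lap u x‖ ^ 2) +
      ∫ x, Real.sqrt (gsq a x) * (Real.sqrt (en u x) * (Real.sqrt (hsq u x) + ‖lap u x‖))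

/-- The stationarity identity with its error term, for smooth maps. -/
def T_STT : Prop := ∀ (n m : ℕ) (U : Set (E n)) (u : E n → E m), IsOpen U →
    ContDiffOn ℝ ∞ u U → ∀ X : E n → E n, ContDiff ℝ 1 X → HasCompactSupport X → tsupport X ⊆ U →
    ∫ x, statF (fderiv ℝ u x) (fderiv ℝ X x) = 2 * ∫ x, ⟪fderiv ℝ u x (X x), lap u x⟫

/-- Pointwise Bochner formula without any equation. -/
def T_BX : Prop := ∀ (n m : ℕ) (U : Set (E n)) (u : E n → E m), IsOpen U → ContDiffOn ℝ ∞ u U →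
    ContDiffOn ℝ ∞ (en u) U ∧ (∀ i : Fin n,
      ContDiffOn ℝ ∞ (fun y => ⟪fderiv ℝ u y (bv i), lap u y⟫) U) ∧
    ∀ x ∈ U, lap (en u) x = 2 * (hsq u x - ‖lap u x‖ ^ 2) +
      2 * ∑ i : Fin n, fderiv ℝ (fun y => ⟪fderiv ℝ u y (bv i), lap u y⟫) x (bv i)

/-- Mean value inequality with a divergence and a constant. -/
def T_MVX : Prop := ∀ n : ℕ, ∃ C : ℝ, 0 < C ∧ ∀ (f : E n → ℝ) (X : Fin n → E n → ℝ) (x : E n)
    (r Λ b B : ℝ), 0 < r → ContDiffOn ℝ 2 f (ball x r) →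
    (∀ i, ContDiffOn ℝ 1 (X i) (ball x r)) → (∀ y ∈ ball x r, 0 ≤ f y) → 0 ≤ Λ →
    Λ * r ^ 2 ≤ 16 → 0 ≤ b → 0 ≤ B → (∀ y ∈ ball x r, ∑ i : Fin n, X i y ^ 2 ≤ B ^ 2) →
    (∀ y ∈ ball x r, - (Λ * f y) - b + ∑ i : Fin n, fderiv ℝ (X i) y (bv i) ≤ lap f y) →
    ENNReal.ofReal (r ^ n * (f x - C * (r ^ 2 * b + r * B))) ≤
      ENNReal.ofReal C * ∫⁻ y in ball x r, ENNReal.ofReal (f y)

/-- The angular derivative: integral identity without any equation. -/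
def T_BTH : Prop := ∀ (d m : ℕ) (U : Set (E (d + 2))) (u : E (d + 2) → E m)
    (a : E (d + 2) → ℝ), IsOpen U → RotSet U → ContDiffOn ℝ ∞ u U → ContDiff ℝ 1 a →
    HasCompactSupport a → tsupport a ⊆ U → (∀ (θ : ℝ) (x : E (d + 2)), a (rot θ x) = a x) →
    ContDiffOn ℝ ∞ (uth u) U ∧
    - (∫ x, ∑ i : Fin (d + 2), fderiv ℝ a x (bv i) *
        ⟪uth u x, fderiv ℝ (uth u) x (bv i)⟫) =
      ∫ x, a x * (nsq (fderiv ℝ (uth u) x) - ⟪uthth u x, lap u x⟫)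

/-! ### The three integral estimates with an error term -/

/-- Angular part. -/
def T_ANT : Prop := ∀ (d m : ℕ) (U : Set (E (d + 2))) (u : E (d + 2) → E m)
    (w χ τ : E (d + 2) → ℝ),
    IsOpen U → RotSet U → (∀ x ∈ U, 0 < rho x) → ContDiffOn ℝ ∞ u U →
    MemLp τ 2 (volume.restrict U) → (∀ x, 0 ≤ τ x) →
    (∀ x ∈ U, |⟪uthth u x, lap u x⟫| * rho x ^ 2 ≤
      1 / 8 * ‖uth u x‖ ^ 2 + rho x ^ 2 * (τ x * ‖uthth u x‖)) →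
    ContDiffOn ℝ 1 w U → (∀ x ∈ U, 0 < w x) → (∀ (θ : ℝ), ∀ x ∈ U, w (rot θ x) = w x) →
    (∀ x ∈ U, rho x ^ 2 * gsq w x ≤ 5 / 2 * w x ^ 2) →
    ContDiff ℝ 1 χ → HasCompactSupport χ → tsupport χ ⊆ U →
    (∀ (θ : ℝ) (x : E (d + 2)), χ (rot θ x) = χ x) →
    ∫ x, χ x ^ 2 * w x * (rho x ^ 2)⁻¹ * ‖uth u x‖ ^ 2 ≤
      100 * (∫ x, w x * gsq χ x * ‖uth u x‖ ^ 2) +
      100 * ∫ x, χ x ^ 2 * w x * rho x ^ 2 * τ x ^ 2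

/-- Stationarity up to a tension. -/
def StatT {n m : ℕ} (G : E n → E n →L[ℝ] E m) (τ : E n → ℝ) : Prop :=
  ∀ X : E n → E n, ContDiff ℝ 1 X → HasCompactSupport X → tsupport X ⊆ ball 0 2 →
    |∫ x, statF (G x) (fderiv ℝ X x)| ≤
      2 * ∫ x in ball (0 : E n) 2, τ x * (Real.sqrt (nsq (G x)) * ‖X x‖)

/-- Weighted Pohozaev inequality. -/
def T_POT : Prop := ∀ (d m : ℕ) (G : E (d + 2) → E (d + 2) →L[ℝ] E m)
    (τ ζ η : E (d + 2) → ℝ) (C₀ L : ℝ),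
    MemLp G 2 (volume.restrict (ball (0 : E (d + 2)) 2)) →
    MemLp τ 2 (volume.restrict (ball (0 : E (d + 2)) 2)) → (∀ x, 0 ≤ τ x) → StatT G τ →
    ContDiff ℝ 1 ζ → HasCompactSupport ζ → tsupport ζ ⊆ ball 0 2 → (∀ x, 0 ≤ ζ x ∧ ζ x ≤ 1) →
    0 ≤ L → (∀ x, gsq ζ x ≤ L ^ 2) → ContDiff ℝ 1 η →
    (∀ x ∈ ball (0 : E (d + 2)) 2, fderiv ℝ η x (Jm d x) = 0) →
    (∀ x ∈ ball (0 : E (d + 2)) 2, 0 ≤ η x) → (∀ x ∈ ball (0 : E (d + 2)) 2, 0 ≤ kap η x) →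
    (∀ x ∈ ball (0 : E (d + 2)) 2, kap η x ≤ 3 / 2 * η x) →
    (∀ x ∈ ball (0 : E (d + 2)) 2, rho x ^ 2 * nzs (fderiv ℝ η x) ≤ kap η x * η x / 16) →
    (∀ x ∈ ball (0 : E (d + 2)) 2, rho x * η x ≤ C₀) →
    ∫ x in ball (0 : E (d + 2)) 2, ζ x * kap η x *
        (nzs (G x) + (rho x ^ 2)⁻¹ * ‖G x (Pm d x)‖ ^ 2) ≤
      6 * (∫ x in ball (0 : E (d + 2)) 2, ζ x * kap η x * ((rho x ^ 2)⁻¹ * ‖G x (Jm d x)‖ ^ 2)) +
      18 * L * C₀ * (∫ x in ball (0 : E (d + 2)) 2, nsq (G x)) +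
      12 * C₀ * ∫ x in ball (0 : E (d + 2)) 2, τ x * Real.sqrt (nsq (G x))

/-- Weighted Hessian estimate. -/
def T_HET : Prop := ∀ (d m : ℕ) (U : Set (E (d + 2))) (u : E (d + 2) → E m)
    (w χ τ : E (d + 2) → ℝ), IsOpen U → (∀ x ∈ U, 0 < rho x) → ContDiffOn ℝ ∞ u U →
    MemLp τ 2 (volume.restrict U) → (∀ x, 0 ≤ τ x) →
    (∀ x ∈ U, ‖lap u x‖ ^ 2 * rho x ^ 2 ≤
      1 / 8 * nsq (fderiv ℝ u x) + rho x ^ 2 * τ x ^ 2) →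
    ContDiffOn ℝ 1 w U → (∀ x ∈ U, 0 < w x) →
    (∀ x ∈ U, rho x ^ 2 * gsq w x ≤ 5 / 2 * w x ^ 2) →
    ContDiff ℝ 1 χ → HasCompactSupport χ → tsupport χ ⊆ U →
    ∫ x, χ x ^ 2 * rho x ^ 2 * w x * hsq u x ≤
      100 * (∫ x, (χ x ^ 2 + rho x ^ 2 * gsq χ x) * w x * nsq (fderiv ℝ u x)) +
      100 * ∫ x, χ x ^ 2 * w x * rho x ^ 2 * τ x ^ 2

/-! ### The engine -/

/-- What is used of the map: smooth on the open rotation invariant set `U` off the axis, stationary up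
to the tension `τ` on the ball of radius two. -/
structure TenData (d m : ℕ) (U : Set (E (d + 2))) (u : E (d + 2) → E m)
    (G : E (d + 2) → E (d + 2) →L[ℝ] E m) (τ : E (d + 2) → ℝ) : Prop where
  memG : MemLp G 2 (volume.restrict (ball (0 : E (d + 2)) 2))
  memT : MemLp τ 2 (volume.restrict (ball (0 : E (d + 2)) 2))
  tau : ∀ x, 0 ≤ τ x
  stat : StatT G τ
  opn : IsOpen U
  rotU : RotSet U
  sub : U ⊆ ball 0 2
  pos : ∀ x ∈ U, 0 < rho x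
  smooth : ContDiffOn ℝ ∞ u U
  ae : ∀ᵐ x ∂(volume.restrict U), G x = fderiv ℝ u x
  lapb : ∀ x ∈ U, ‖lap u x‖ ^ 2 * rho x ^ 2 ≤
    1 / 8 * nsq (fderiv ℝ u x) + rho x ^ 2 * τ x ^ 2
  angb : ∀ x ∈ U, |⟪uthth u x, lap u x⟫| * rho x ^ 2 ≤
    1 / 8 * ‖uth u x‖ ^ 2 + rho x ^ 2 * (τ x * ‖uthth u x‖)

/-- A cutoff for the bad set: it vanishes near all points of the region `r(z) < ρ` outside of `U`. -/
structure CutV (d : ℕ) (U : Set (E (d + 2))) (r : E d → ℝ) (C₀ : ℝ)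
    (w χ : E (d + 2) → ℝ) : Prop where
  C1 : ContDiffOn ℝ 1 χ {x | 0 < rho x}
  bd : ∀ x, 0 ≤ χ x ∧ χ x ≤ 1
  rotc : ∀ (θ : ℝ) (x : E (d + 2)), χ (rot θ x) = χ x
  gr : ∀ x, 0 < rho x → rho x ^ 2 * gsq χ x ≤ C₀
  wle : ∀ x ∈ ball (0 : E (d + 2)) 2, 0 < rho x → χ x < 1 → w x ≤ C₀
  van : ∀ x ∈ closedBall (0 : E (d + 2)) (7 / 4), r (zp x) < rho x → x ∉ U →
    ∀ᶠ y in 𝓝 x, χ y = 0

/-- Estimate (1) with bad set and tension. -/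
def T_EA1 : Prop := ∀ (d : ℕ) (C₀ C₁ M : ℝ), ∃ K : ℝ, 0 ≤ K ∧ ∀ r : E d → ℝ, ContDiff ℝ 1 r →
    (∀ z, 0 < r z) → (∀ z, ‖fderiv ℝ r z‖ ≤ M) → ∀ (η w : E (d + 2) → ℝ), Wts d r C₀ C₁ η w →
    ∀ (U : Set (E (d + 2))) (χ : E (d + 2) → ℝ), CutV d U r C₀ w χ →
    ∀ (m : ℕ) (u : E (d + 2) → E m) (G : E (d + 2) → E (d + 2) →L[ℝ] E m)
    (τ : E (d + 2) → ℝ), TenData d m U u G τ →
    ∫ x in {x | x ∈ ball (0 : E (d + 2)) (3 / 2) ∧ 2 * r (zp x) ≤ rho x},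
      χ x ^ 2 * (w x * ((rho x ^ 2)⁻¹ * ‖uth u x‖ ^ 2)) ≤
      K * ∫ x in ball (0 : E (d + 2)) 2, (nsq (G x) + τ x ^ 2)

/-- Estimate (2) with bad set and tension. -/
def T_EA2 : Prop := ∀ (d : ℕ) (C₀ C₁ M : ℝ), ∃ K : ℝ, 0 ≤ K ∧ ∀ r : E d → ℝ, ContDiff ℝ 1 r →
    (∀ z, 0 < r z) → (∀ z, ‖fderiv ℝ r z‖ ≤ M) → ∀ (η w : E (d + 2) → ℝ), Wts d r C₀ C₁ η w →
    ∀ (U : Set (E (d + 2))) (χ : E (d + 2) → ℝ), CutV d U r C₀ w χ →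
    ∀ (m : ℕ) (u : E (d + 2) → E m) (G : E (d + 2) → E (d + 2) →L[ℝ] E m)
    (τ : E (d + 2) → ℝ), TenData d m U u G τ →
    ∫ x in ball (0 : E (d + 2)) (5 / 4), kap η x * nsq (G x) ≤
      K * ∫ x in ball (0 : E (d + 2)) 2, (nsq (G x) + τ x ^ 2)

/-- Estimate (3) with bad set and tension. -/
def T_EA3 : Prop := ∀ (d : ℕ) (C₀ C₁ M : ℝ), ∃ K : ℝ, 0 ≤ K ∧ ∀ r : E d → ℝ, ContDiff ℝ 1 r →
    (∀ z, 0 < r z) → (∀ z, ‖fderiv ℝ r z‖ ≤ M) → ∀ (η w : E (d + 2) → ℝ), Wts d r C₀ C₁ η w →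
    ∀ (U : Set (E (d + 2))) (χ : E (d + 2) → ℝ), CutV d U r C₀ w χ →
    ∀ (m : ℕ) (u : E (d + 2) → E m) (G : E (d + 2) → E (d + 2) →L[ℝ] E m)
    (τ : E (d + 2) → ℝ), TenData d m U u G τ →
    ∫⁻ x in {x | x ∈ ball (0 : E (d + 2)) 1 ∧ 2 * r (zp x) < rho x},
      ENNReal.ofReal (χ x ^ 2 * (rho x ^ 2 * w x * hsq u x)) ≤
      ENNReal.ofReal (K * ∫ x in ball (0 : E (d + 2)) 2, (nsq (G x) + τ x ^ 2))

end

end Pool.Agent.H87.AX
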