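import Pool.Agent.H87.AX.Targets

/-! Axially symmetric harmonic maps in dimension three (MP_2697e3_an): target statements, part 2: maps of
the plane with bounded tension. -/

namespace Pool.Agent.H87.AX

open MeasureTheory Metric Set Filter Topology Pool.Agent.H87.SN Pool.Agent.H87.SH
open scoped ContDiff RealInnerProductSpace ENNReal

noncomputable section

/-- Maps of the plane with bounded tension: what is used of them. -/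
structure TM (m : ℕ) (L T : ℝ) (U : Set (E 2)) (v : E 2 → E m) : Prop where
  smooth : ContDiffOn ℝ ∞ v U
  lapb : ∀ x ∈ U, ‖lap v x‖ ≤ L * (1 + en v x)
  tan : ∀ x ∈ U, ∀ h : E 2, |⟪fderiv ℝ v x h, lap v x⟫| ≤
    T * (1 + Real.sqrt (en v x)) * ‖fderiv ℝ v x h‖
  ang : ∀ x ∈ U, ∀ h k : E 2,
    |⟪fderiv ℝ (fderiv ℝ v) x h h + fderiv ℝ v x k, lap v x⟫| ≤
      L * ‖fderiv ℝ v x h‖ ^ 2 * en v x +
      T * (1 + Real.sqrt (en v x)) * ‖fderiv ℝ (fderiv ℝ v) x h h + fderiv ℝ v x k‖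

/-- The integral of the energy density. -/
def engy {n m : ℕ} (v : E n → E m) (S : Set (E n)) : ℝ≥0∞ :=
  ∫⁻ x in S, ENNReal.ofReal (en v x)

/-- The integral of the norm of the Hessian. -/
def hInt {n m : ℕ} (v : E n → E m) (S : Set (E n)) : ℝ≥0∞ :=
  ∫⁻ x in S, ENNReal.ofReal (Real.sqrt (hsq v x))

/-- Scaling in the plane. -/
def T_TMZ : Prop := ∀ (m : ℕ) (L T : ℝ) (v : E 2 → E m) (c : E 2) (r R : ℝ), 0 ≤ L → 0 ≤ T →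
    0 < r → r ≤ 1 → 0 < R → TM m L T (ball c (r * R)) v →
    TM m L (r * T) (ball 0 R) (fun y => v (c + r • y)) ∧
    (∀ y ∈ ball (0 : E 2) R, en (fun y => v (c + r • y)) y = r ^ 2 * en v (c + r • y)) ∧
    ∀ ρ : ℝ, 0 < ρ → ρ ≤ R →
      engy (fun y => v (c + r • y)) (ball 0 ρ) = engy v (ball c (r * ρ)) ∧
      hInt (fun y => v (c + r • y)) (ball 0 ρ) = hInt v (ball c (r * ρ)) ∧
      ∀ a : ℝ, 0 ≤ a →
        hInt (fun y => v (c + r • y)) (ball 0 ρ \ closedBall 0 a) =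
          hInt v (ball c (r * ρ) \ closedBall c (r * a))

/-- Small energy and small tension imply a small gradient. -/
def T_EP2 : Prop := ∀ (m : ℕ) (L δ : ℝ), 0 ≤ L → 0 < δ → ∃ ε T₀ : ℝ, 0 < ε ∧ 0 < T₀ ∧
    ∀ v : E 2 → E m, TM m L T₀ (ball 0 1) v → engy v (ball 0 1) ≤ ENNReal.ofReal ε →
    ∀ y ∈ ball (0 : E 2) (1 / 2), en v y ≤ δ ^ 2

/-- Local bound of the Hessian. -/
def T_LH2 : Prop := ∀ (m : ℕ) (L T : ℝ), 0 ≤ L → 0 ≤ T → ∃ C : ℝ, 0 ≤ C ∧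
    ∀ v : E 2 → E m, TM m L T (ball 0 1) v → (∀ y ∈ ball (0 : E 2) 1, en v y ≤ 1) →
    hInt v (ball 0 (1 / 2)) ≤ ENNReal.ofReal C

/-- The neck estimate in the plane, with tension. -/
def T_NC2 : Prop := ∀ (m : ℕ) (L : ℝ), 0 ≤ L → ∃ δ : ℝ, 0 < δ ∧ ∀ Λ : ℝ, 0 ≤ Λ → ∃ K : ℝ,
    0 ≤ K ∧ ∀ (v : E 2 → E m) (a : ℝ), TM m L 1 (ball 0 2) v →
    engy v (ball 0 2) ≤ ENNReal.ofReal Λ → 0 < a → a ≤ 1 →
    (∀ x ∈ ball (0 : E 2) 2, a < ‖x‖ → ‖x‖ ^ 2 * en v x ≤ δ ^ 2) →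
    hInt v (ball 0 1 \ closedBall 0 (2 * a)) ≤ ENNReal.ofReal K

/-- A covering lemma. -/
def T_COV : Prop := ∀ n k : ℕ, ∃ M : ℕ, ∀ (x : E n) (ρ : ℝ) (A : Set (E n)), 0 < ρ →
    A ⊆ closedBall x (k * ρ) → ∃ t : Finset (E n), t.card ≤ M ∧ ↑t ⊆ A ∧ A ⊆ ⋃ c ∈ t, ball c ρ

/-- The smallest disc which carries all but a small part of the energy. -/
def T_SCL : Prop := ∀ (f : E 2 → ℝ≥0∞) (Λ ε r₁ : ℝ), Measurable f → 0 < Λ → 0 < ε → 0 < r₁ →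
    r₁ ≤ 1 / 8 → ∫⁻ x in ball (0 : E 2) 1, f x ≤ ENNReal.ofReal (Λ + ε) →
    (∃ B : ℝ≥0∞, B ≠ ⊤ ∧ ∀ x ∈ ball (0 : E 2) (7 / 8), f x ≤ B) →
    (∀ x ∈ closedBall (0 : E 2) (5 / 8), ∫⁻ y in ball x r₁, f y ≤ ENNReal.ofReal Λ) ∨
    ∃ x₀ ∈ closedBall (0 : E 2) (5 / 8), ∃ r₀ : ℝ, 0 < r₀ ∧ r₀ < r₁ ∧
      (∀ x ∈ closedBall (0 : E 2) (5 / 8), ∫⁻ y in ball x r₀, f y ≤ ENNReal.ofReal Λ) ∧
      ∀ r : ℝ, r₀ < r → ∫⁻ y in ball (0 : E 2) 1 \ ball x₀ r, f y ≤ ENNReal.ofReal ε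

/-- One step of the induction on the energy; base of the induction. -/
def T_IDS : Prop := ∀ (m : ℕ) (L : ℝ), 0 ≤ L → ∃ T₀ ε : ℝ, 0 < T₀ ∧ 0 < ε ∧
    (∃ K : ℝ, 0 ≤ K ∧ ∀ v : E 2 → E m, TM m L T₀ (ball 0 1) v →
      engy v (ball 0 1) ≤ ENNReal.ofReal ε → hInt v (ball 0 (1 / 2)) ≤ ENNReal.ofReal K) ∧
    ∀ Λ : ℝ, ε ≤ Λ →
    (∃ K : ℝ, 0 ≤ K ∧ ∀ v : E 2 → E m, TM m L T₀ (ball 0 1) v →
      engy v (ball 0 1) ≤ ENNReal.ofReal Λ → hInt v (ball 0 (1 / 2)) ≤ ENNReal.ofReal K) →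
    ∃ K : ℝ, 0 ≤ K ∧ ∀ v : E 2 → E m, TM m L T₀ (ball 0 1) v →
      engy v (ball 0 1) ≤ ENNReal.ofReal (Λ + ε) → hInt v (ball 0 (1 / 2)) ≤ ENNReal.ofReal K

/-- Maps of the plane with bounded tension and bounded energy have Hessian bounded in `L^1`. -/
def T_TM2 : Prop := ∀ (m : ℕ) (L T Λ : ℝ), 0 ≤ L → 0 ≤ T → 0 ≤ Λ → ∃ K : ℝ, 0 ≤ K ∧
    ∀ v : E 2 → E m, TM m L T (ball 0 1) v →
    engy v (ball 0 1) ≤ ENNReal.ofReal Λ → hInt v (ball 0 (1 / 2)) ≤ ENNReal.ofReal K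

/-- Geometry of the target in the plane. -/
def T_GE2 : Prop := ∀ (m : ℕ) (N : Set (E m)) (A : E m → E m →L[ℝ] E m →L[ℝ] E m),
    IsCompact N → IsSFF N A → ∃ CA : ℝ, 0 ≤ CA ∧ ∀ (n : ℕ) (U : Set (E n)) (v : E n → E m),
    IsOpen U → ContDiffOn ℝ ∞ v U → (∀ x ∈ U, v x ∈ N) → ∀ x ∈ U, ∀ h k l : E n,
      ⟪fderiv ℝ v x h, A (v x) (fderiv ℝ v x k) (fderiv ℝ v x k)⟫ = 0 ∧
      ‖A (v x) (fderiv ℝ v x h) (fderiv ℝ v x h)‖ ≤ CA * ‖fderiv ℝ v x h‖ ^ 2 ∧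
      |⟪fderiv ℝ (fderiv ℝ v) x h h + fderiv ℝ v x k,
          A (v x) (fderiv ℝ v x l) (fderiv ℝ v x l)⟫| ≤
        CA * ‖fderiv ℝ v x h‖ ^ 2 * ‖fderiv ℝ v x l‖ ^ 2

end

end Pool.Agent.H87.AX
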