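import Pool.Agent.H87.AX.Targets2

/-! Axially symmetric harmonic maps in dimension three (MP_2697e3_an): target statements, part 3: the
weights of a measure on the half plane, and the good part. -/

namespace Pool.Agent.H87.AX

open MeasureTheory Metric Set Filter Topology Pool.Agent.H87.SN Pool.Agent.H87.SH
open scoped ContDiff RealInnerProductSpace ENNReal

noncomputable section

/-- The kernel. -/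
def kerV (s τ : ℝ) (q : ℝ × ℝ) : ℝ :=
  (s / (s ^ 2 + q.1 ^ 2 + (τ - q.2) ^ 2 / 100)) ^ (3 / 2 : ℝ) * Real.sqrt q.1

/-- The influence function of a measure on the half plane. -/
def Jn (ν : Measure (ℝ × ℝ)) (s τ : ℝ) : ℝ := ∫ q, kerV s τ q ∂ν

/-- Finite measures on the half plane. -/
structure Adm (ν : Measure (ℝ × ℝ)) : Prop where
  fin : ν univ ≠ ⊤
  pos : ν {q | q.1 ≤ 0} = 0

/-- The weight. -/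
def Wn (h : ℝ) (ν : Measure (ℝ × ℝ)) (p : ℝ × ℝ) : ℝ :=
  (p.1 + Jn ν p.1 p.2 + Real.sqrt (h / p.1))⁻¹

/-- The threshold. -/
def c0 : ℝ := 1 / 1000

/-- `J` as a function on the space. -/
def Jx (ν : Measure (ℝ × ℝ)) (x : E (1 + 2)) : ℝ := Jn ν (rho x) (zp x 0)

/-- Facts on the kernel. -/
def T_KVF : Prop :=
    (∀ (s τ : ℝ) (q : ℝ × ℝ), 0 < s → 0 < q.1 → 0 < kerV s τ q ∧ kerV s τ q ≤ s⁻¹) ∧
    (∀ q : ℝ × ℝ, 0 < q.1 → ContDiffOn ℝ 1 (fun p : ℝ × ℝ => kerV p.1 p.2 q) {p | 0 < p.1}) ∧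
    (∀ (s τ : ℝ) (q : ℝ × ℝ), 0 < s → 0 < q.1 →
      |s * deriv (fun x => kerV x τ q) s| ≤ 3 / 2 * kerV s τ q ∧
      |s * deriv (fun y => kerV s y q) τ| ≤ 3 / 20 * kerV s τ q) ∧
    (∀ (s s' τ τ' : ℝ) (q : ℝ × ℝ), 0 < s → 0 < s' → 0 < q.1 → |s - s'| ≤ s' / 8 →
      |τ - τ'| ≤ s' / 8 → kerV s τ q ≤ 2 * kerV s' τ' q) ∧
    (∀ (s τ : ℝ) (q : ℝ × ℝ), 0 < s → |q.1 - s| < s / 16 → |q.2 - τ| < s / 16 →
      3 / 10 ≤ s * kerV s τ q)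

/-- The integral of the kernel. -/
def T_KVI : Prop := ∃ C : ℝ, 0 ≤ C ∧ ∀ q : ℝ × ℝ, 0 < q.1 →
    ∫⁻ τ : ℝ, ∫⁻ s in Ioi (0 : ℝ), ENNReal.ofReal (kerV s τ q / s) ≤ ENNReal.ofReal C

/-- The function `J` is of class `C^1`. -/
def T_JGN : Prop := ∀ ν : Measure (ℝ × ℝ), Adm ν →
    (∀ s τ : ℝ, 0 < s → 0 ≤ Jn ν s τ) ∧
    ContDiffOn ℝ 1 (fun p : ℝ × ℝ => Jn ν p.1 p.2) {p | 0 < p.1} ∧
    (∀ s τ : ℝ, 0 < s → |s * deriv (fun x => Jn ν x τ) s| ≤ 3 / 2 * Jn ν s τ) ∧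
    (∀ s τ : ℝ, 0 < s → |s * deriv (fun y => Jn ν s y) τ| ≤ 3 / 20 * Jn ν s τ) ∧
    (∀ s s' τ τ' : ℝ, 0 < s → 0 < s' → |s - s'| ≤ s' / 8 → |τ - τ'| ≤ s' / 8 →
      Jn ν s τ ≤ 2 * Jn ν s' τ')

/-- The integral of `J`. -/
def T_JGI : Prop := ∃ C : ℝ, 0 ≤ C ∧ ∀ ν : Measure (ℝ × ℝ), Adm ν →
    ∫⁻ τ : ℝ, ∫⁻ s in Ioi (0 : ℝ), ENNReal.ofReal (Jn ν s τ / s) ≤ ENNReal.ofReal C * ν univ

/-- The profile. -/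
def T_PR3 : Prop := ∀ (h : ℝ) (ν : Measure (ℝ × ℝ)), 0 < h → h ≤ 1 → Adm ν →
    ∃ H : ℝ × E 1 → ℝ, Prof 1 (fun _ => h) 2000 H (fun p => Wn h ν (p.1, p.2 0))

/-- The weight is integrable. -/
def T_IN3 : Prop := ∃ C : ℝ, 0 ≤ C ∧ ∀ (h : ℝ) (ν : Measure (ℝ × ℝ)), 0 < h → h ≤ 1 → Adm ν →
    ∫⁻ x in {x : E (1 + 2) | x ∈ ball (0 : E (1 + 2)) 1 ∧ 2 * h < rho x},
      ENNReal.ofReal ((rho x ^ 2 * Wn h ν (rho x, zp x 0))⁻¹) ≤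
      ENNReal.ofReal C * (1 + ν univ)

/-- The cutoff of the bad set. -/
def T_CHV : Prop := ∀ (ν : Measure (ℝ × ℝ)), Adm ν → ∃ χ : E (1 + 2) → ℝ,
    ContDiffOn ℝ 1 χ {x | 0 < rho x} ∧ (∀ x, 0 ≤ χ x ∧ χ x ≤ 1) ∧
    (∀ (θ : ℝ) (x : E (1 + 2)), χ (rot θ x) = χ x) ∧
    (∀ x, 0 < rho x → rho x ^ 2 * gsq χ x ≤ 2000) ∧
    (∀ x, 0 < rho x → Jx ν x ≤ c0 / 2 → χ x = 1) ∧
    (∀ x, 0 < rho x → 3 / 4 * c0 ≤ Jx ν x → χ x = 0)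

/-- Lower bound of `J` near a piece of the measure. -/
def T_NBH : Prop := ∀ (ν : Measure (ℝ × ℝ)) (p : ℝ × ℝ), Adm ν → 0 < p.1 →
    (∀ A : Set (ℝ × ℝ), MeasurableSet A → A ⊆ {q | |q.1 - p.1| < p.1 / 16 ∧ |q.2 - p.2| < p.1 / 16} →
      ∫⁻ q in A, ENNReal.ofReal (1 / q.1) ≤ ν A) →
    c0 ≤ Jn ν p.1 p.2

/-- The good region of a measure. -/
def UV (ν : Measure (ℝ × ℝ)) : Set (E (1 + 2)) :=
  {x | x ∈ ball 0 (15 / 8) ∧ 0 < rho x ∧ Jx ν x < c0}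

/-- From stationary harmonic maps to the data. -/
def T_NKV : Prop := ∀ (m : ℕ) (N : Set (E m)) (A : E m → E m →L[ℝ] E m →L[ℝ] E m),
    IsCompact N → IsSFF N A → ∃ δ : ℝ, 0 < δ ∧ ∀ (d : ℕ) (U : Set (E (d + 2)))
    (u : E (d + 2) → E m) (G : E (d + 2) → E (d + 2) →L[ℝ] E m),
    StationaryHarmonic N A u G → IsOpen U → RotSet U → U ⊆ ball 0 2 → (∀ x ∈ U, 0 < rho x) →
    ContDiffOn ℝ ∞ u U → (∀ x ∈ U, rho x * Real.sqrt (en u x) ≤ δ) →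
    TenData d m U u G (fun _ => 0)

/-- The good part. -/
def T_GPT : Prop := ∀ (m : ℕ) (N : Set (E m)) (A : E m → E m →L[ℝ] E m →L[ℝ] E m),
    IsCompact N → IsSFF N A → ∃ δ K : ℝ, 0 < δ ∧ 0 ≤ K ∧ ∀ (ν : Measure (ℝ × ℝ)), Adm ν →
    ∀ (u : E (1 + 2) → E m) (G : E (1 + 2) → E (1 + 2) →L[ℝ] E m),
    StationaryHarmonic N A u G → ContDiffOn ℝ ∞ u (UV ν) →
    (∀ x ∈ UV ν, rho x * Real.sqrt (en u x) ≤ δ) →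
    hInt u {x | x ∈ ball (0 : E (1 + 2)) 1 ∧ 0 < rho x ∧ Jx ν x ≤ c0 / 2} ≤
      ENNReal.ofReal (K * Real.sqrt ((1 + (ν univ).toReal) *
        ∫ x in ball (0 : E (1 + 2)) 2, nsq (G x)))

/-- Energy of balls. -/
def T_ENB : Prop := ∀ d : ℕ, ∃ C : ℝ, 0 ≤ C ∧ ∀ (m : ℕ)
    (G : E (d + 2) → E (d + 2) →L[ℝ] E m),
    MemLp G 2 (volume.restrict (ball (0 : E (d + 2)) 2)) → Stat1 G →
    ∀ (a : E (d + 2)) (r : ℝ), ‖a‖ ≤ 3 / 2 → 0 < r → r ≤ 1 / 4 →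
    ∫ x in ball a r, nsq (G x) ≤ C * r ^ d * ∫ x in ball (0 : E (d + 2)) 2, nsq (G x)

/-- Small energy implies a small gradient, for smooth harmonic maps. -/
def T_EPS : Prop := ∀ (d m : ℕ) (L δ : ℝ), 0 ≤ L → 0 < δ → ∃ ε : ℝ, 0 < ε ∧
    ∀ (u : E (d + 2) → E m) (x : E (d + 2)) (r : ℝ), 0 < r → HM (d + 2) m L (ball x r) u →
    engy u (ball x r) ≤ ENNReal.ofReal (ε * r ^ d) → r ^ 2 * en u x ≤ δ ^ 2

/-- The ring of relative size `l` at the point `p` of the half plane. -/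
def rg (p : ℝ × ℝ) (l : ℝ) : Set (E (1 + 2)) :=
  {x | |rho x - p.1| < l * p.1 ∧ |zp x 0 - p.2| < l * p.1}

/-- The packing bound. -/
def T_PCK : Prop := ∃ C : ℝ, 0 ≤ C ∧ ∀ (e : E (1 + 2) → ℝ≥0∞) (B : Set (ℝ × ℝ)) (ε : ℝ),
    Measurable e → MeasurableSet B → B ⊆ {p | 0 < p.1} → 0 < ε →
    (∀ p ∈ B, ENNReal.ofReal (ε * p.1) ≤ ∫⁻ x in rg p (3 / 4), e x) →
    ∫⁻ p in B, ENNReal.ofReal (1 / p.1) ≤ ENNReal.ofReal (C / ε) * ∫⁻ x, e x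

/-- Averaging over rings. -/
def T_AVG : Prop := ∀ (h : E (1 + 2) → ℝ≥0∞) (V : Set (E (1 + 2))) (V' : Set (ℝ × ℝ)),
    Measurable h → MeasurableSet V → MeasurableSet V' → V ⊆ {x | 0 < rho x} →
    (∀ x ∈ V, ∀ p : ℝ × ℝ, 0 < p.1 → x ∈ rg p (1 / 16) → p ∈ V') →
    ∫⁻ x in V, h x ≤ 200 * ∫⁻ p in V' ∩ {p | 0 < p.1},
      ENNReal.ofReal (1 / p.1 ^ 2) * ∫⁻ x in rg p (1 / 16), h x

end

end Pool.Agent.H87.AX
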